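import Pool.Agent.Work.MP_432615_al.Three

/-!
# T6 : any three involutions generate a finite group; the final argument
-/

set_option autoImplicit false

namespace Pool.Agent.Work.MP_432615_al

open Subgroup
open scoped commutatorElement

universe u

variable {G : Type u} [Group G]

theorem trip (hG : HG G) {F : Subgroup G} (hF : (F : Set G).Finite) {x y w : G}
    (mx : x ∈ F) (my : y ∈ F) (mw : w ∈ F) (hx : I x) (hy : I y) (hw : I w) (hxy : I (c x y)) :
    I (c (c x y) w) ∧ ∀ t ∈ F, Commute (c (c x y) w) t := by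
  have h := hG.cls F hF
  have e : ⁅⁅x, y⁆, w⁆ = c (c x y) w := by rw [comm_eq_c hx hy, comm_eq_c hxy hw]
  refine ⟨?_, ?_⟩
  · rw [← e]; exact Cl3.sq_right h mx my mw hw
  · intro t ht; rw [← e]; exact Cl3.cen h mx my mw ht

/-- the key descent: `p = [v,a]` is trivial -/
theorem half (hG : HG G) {a b d v : G} (Ia : I a) (Ib : I b) (Id : I d) (Iv : I v)
    (hc : ∀ t : G, Commute t a → Commute t b → Commute t d → t = 1)
    (Ip : I (c v a)) (pa : Commute (c v a) a) (pd : Commute (c v a) d)
    (hfin : ((closure ({a, b, v} : Set G) : Subgroup G) : Set G).Finite) : c v a = 1 := by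
  obtain ⟨p, hp⟩ : ∃ p, c v a = p := ⟨_, rfl⟩
  rw [hp] at Ip pa pd ⊢
  -- t1
  obtain ⟨i1, h1⟩ := trip hG hfin (x := v) (y := a) (w := b) (Subgroup.subset_closure (by simp))
    (Subgroup.subset_closure (by simp)) (Subgroup.subset_closure (by simp)) Iv Ia Ib
    (by rw [hp]; exact Ip)
  rw [hp] at i1 h1
  obtain ⟨s, hs⟩ : ∃ s, c p b = s := ⟨_, rfl⟩
  rw [hs] at i1 h1
  have sa : Commute s a := h1 a (Subgroup.subset_closure (by simp))
  have sb : Commute s b := h1 b (Subgroup.subset_closure (by simp))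
  -- t2
  have f2 := T4 hG Ip Id Ib pd
  obtain ⟨i2, h2⟩ := trip hG f2 (x := p) (y := b) (w := d) (Subgroup.subset_closure (by simp))
    (Subgroup.subset_closure (by simp)) (Subgroup.subset_closure (by simp)) Ip Ib Id
    (by rw [hs]; exact i1)
  rw [hs] at i2 h2
  obtain ⟨t2, ht2⟩ : ∃ t, c s d = t := ⟨_, rfl⟩
  rw [ht2] at i2 h2
  have t2b : Commute t2 b := h2 b (Subgroup.subset_closure (by simp))
  have t2d : Commute t2 d := h2 d (Subgroup.subset_closure (by simp))
  -- t3
  have f3 := T4 hG i1 Ia Id sa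
  obtain ⟨i3, h3⟩ := trip hG f3 (x := s) (y := d) (w := a) (Subgroup.subset_closure (by simp))
    (Subgroup.subset_closure (by simp)) (Subgroup.subset_closure (by simp)) i1 Id Ia
    (by rw [ht2]; exact i2)
  rw [ht2] at i3 h3
  obtain ⟨t3, ht3⟩ : ∃ t, c t2 a = t := ⟨_, rfl⟩
  rw [ht3] at i3 h3
  have t3a : Commute t3 a := h3 a (Subgroup.subset_closure (by simp))
  have t3d : Commute t3 d := h3 d (Subgroup.subset_closure (by simp))
  -- the conjugate of d by a
  have Ida : I (a * d * a) := I_conj Id Ia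
  have pda : Commute p (a * d * a) := (pa.mul_right pd).mul_right pa
  have f4 := T4 hG Ip Ida Ib pda
  obtain ⟨-, h4⟩ := trip hG f4 (x := p) (y := b) (w := a * d * a)
    (Subgroup.subset_closure (by simp)) (Subgroup.subset_closure (by simp))
    (Subgroup.subset_closure (by simp)) Ip Ib Ida (by rw [hs]; exact i1)
  rw [hs] at h4
  have e4 : c s (a * d * a) = t2 * t3 := by
    have e5 : a * s * a = s := by rw [← sa.eq, mul_assoc, Ia, mul_one]
    have e6 : c s (a * d * a) = a * t2 * a := by
      have := c_conj_conj (p := s) (q := d) Ia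
      rw [e5, ht2] at this; exact this
    rw [e6, conj_eq i2, ht3]
  have t23b : Commute (t2 * t3) b := by
    rw [← e4]; exact h4 b (Subgroup.subset_closure (by simp))
  have t3b : Commute t3 b := by
    have e7 : t3 = t2 * (t2 * t3) := (cancel_l i2 t3).symm
    rw [e7]; exact t2b.mul_left t23b
  have t3e : t3 = 1 := hc _ t3a t3b t3d
  subst t3e
  have t2e : t2 = 1 := hc _ (commute_of_c i2 Ia ht3) t2b t2d
  subst t2e
  have se : s = 1 := hc _ sa sb (commute_of_c i1 Id ht2)
  subst se
  exact hc _ pa (commute_of_c Ip Ib hs) pd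

theorem zone (hG : HG G) {a b d : G} (Ia : I a) (Ib : I b) (Id : I d)
    (hc : ∀ t : G, Commute t a → Commute t b → Commute t d → t = 1) : z a b = 1 := by
  have Iz := I_z hG Ia Ib
  obtain ⟨za, zb⟩ := z_self hG Ia Ib
  obtain ⟨y, hy⟩ : ∃ y, z a b = y := ⟨_, rfl⟩
  rw [hy] at Iz za zb ⊢
  have fa := T4 hG Ia Iz Id za.symm
  have fb := T4 hG Ib Iz Id zb.symm
  have Iv : I (c y d) := by
    apply hc
    · exact z_comm hG fa Iz Id (Subgroup.subset_closure (by simp))
        (Subgroup.subset_closure (by simp)) (Subgroup.subset_closure (by simp))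
    · exact z_comm hG fb Iz Id (Subgroup.subset_closure (by simp))
        (Subgroup.subset_closure (by simp)) (Subgroup.subset_closure (by simp))
    · exact (z_self hG Iz Id).2
  have vy := c_comm_left Iz Id Iv
  have vd := c_comm_right Iz Id Iv
  obtain ⟨ipa, hpa⟩ := trip hG fa (x := y) (y := d) (w := a) (Subgroup.subset_closure (by simp))
    (Subgroup.subset_closure (by simp)) (Subgroup.subset_closure (by simp)) Iz Id Ia Iv
  obtain ⟨ipb, hpb⟩ := trip hG fb (x := y) (y := d) (w := b) (Subgroup.subset_closure (by simp))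
    (Subgroup.subset_closure (by simp)) (Subgroup.subset_closure (by simp)) Iz Id Ib Iv
  obtain ⟨v, hv⟩ : ∃ v, c y d = v := ⟨_, rfl⟩
  rw [hv] at Iv vy vd ipa hpa ipb hpb
  have fin : ((closure ({a, b, v} : Set G) : Subgroup G) : Set G).Finite := by
    apply T1 hG Ia Ib Iv
    · rw [hy]; exact vy.symm
    · rw [z_of_I (c_I_symm Iv Ia ipa)]; exact Commute.one_left _
    · rw [z_of_I (c_I_symm Iv Ib ipb)]; exact Commute.one_left _
  have pa1 : c v a = 1 := half hG Ia Ib Id Iv hc ipa (hpa a (Subgroup.subset_closure (by simp)))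
    (hpa d (Subgroup.subset_closure (by simp))) fin
  have pb1 : c v b = 1 := half hG Ib Ia Id Iv (fun t h1 h2 h3 => hc t h2 h1 h3) ipb
    (hpb b (Subgroup.subset_closure (by simp))) (hpb d (Subgroup.subset_closure (by simp)))
    (by rw [Set.insert_comm]; exact fin)
  have ve : v = 1 := hc _ (commute_of_c Iv Ia pa1) (commute_of_c Iv Ib pb1) vd
  subst ve
  exact hc _ za zb (commute_of_c Iz Id hv)

theorem lemT6 (hG : HG G) {a b d : G} (Ia : I a) (Ib : I b) (Id : I d)
    (hc : ∀ t : G, Commute t a → Commute t b → Commute t d → t = 1) :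
    a = 1 ∧ b = 1 ∧ d = 1 :=
  lemT1 hG Ia Ib Id (zone hG Ia Ib Id hc)
    (zone hG Ia Id Ib (fun t h1 h2 h3 => hc t h1 h3 h2))
    (zone hG Ib Id Ia (fun t h1 h2 h3 => hc t h3 h1 h2)) hc

/-- T6 -/
theorem T6 (hG : HG G) {a b d : G} (Ia : I a) (Ib : I b) (Id : I d) :
    ((closure ({a, b, d} : Set G) : Subgroup G) : Set G).Finite := by
  obtain ⟨Q, _, f, hQ, -, hcen, hfin⟩ := reduce hG ({a, b, d} : Set G) (by simp)
  have m1 : a ∈ closure ({a, b, d} : Set G) := Subgroup.subset_closure (by simp)
  have m2 : b ∈ closure ({a, b, d} : Set G) := Subgroup.subset_closure (by simp)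
  have m3 : d ∈ closure ({a, b, d} : Set G) := Subgroup.subset_closure (by simp)
  have key := lemT6 hQ (a := f ⟨a, m1⟩) (b := f ⟨b, m2⟩) (d := f ⟨d, m3⟩)
    (I_map f (I_coe Ia)) (I_map f (I_coe Ib)) (I_map f (I_coe Id))
    (by
      intro t c1 c2 c3
      apply hcen
      intro s hs
      have hs' := hs
      simp only [Set.mem_insert_iff, Set.mem_singleton_iff] at hs'
      rcases hs' with rfl | rfl | rfl <;> assumption)
  apply hfin
  intro s hs
  have hs' := hs
  simp only [Set.mem_insert_iff, Set.mem_singleton_iff] at hs'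
  rcases hs' with rfl | rfl | rfl
  exacts [key.1, key.2.1, key.2.2]

/-- any finite set of involutions generates a finite group -/
theorem fin_invol (hG : HG G) (S0 : Set G) (hS : S0.Finite) (hI : ∀ x ∈ S0, I x) :
    ((closure S0 : Subgroup G) : Set G).Finite := by
  have hz : ∀ x ∈ S0, ∀ y ∈ S0, ∀ w ∈ S0, Commute (z x y) w := by
    intro x hx y hy w hw
    exact z_comm hG (T6 hG (hI x hx) (hI y hy) (hI w hw)) (hI x hx) (hI y hy)
      (Subgroup.subset_closure (by simp)) (Subgroup.subset_closure (by simp))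
      (Subgroup.subset_closure (by simp))
  have h4 : ∀ p ∈ S0, ∀ q ∈ S0, ∀ r ∈ S0, ∀ s ∈ S0, ⁅⁅⁅p, q⁆, r⁆, s⁆ = 1 := by
    intro p hp q hq r hr s hs
    have hsub : ({p, q, r, s} : Set G) ⊆ S0 := by
      intro x hx
      simp only [Set.mem_insert_iff, Set.mem_singleton_iff] at hx
      rcases hx with rfl | rfl | rfl | rfl <;> assumption
    have := T3 hG (S0 := {p, q, r, s}) rfl (fun x hx => hI x (hsub hx))
      (fun x hx y hy w hw => hz x (hsub hx) y (hsub hy) w (hsub hw))
    exact hG.cls _ this p (Subgroup.subset_closure (by simp)) q (Subgroup.subset_closure (by simp))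
      r (Subgroup.subset_closure (by simp)) s (Subgroup.subset_closure (by simp))
  obtain ⟨Q, _, f, hQ, -, hcen, hfin⟩ := reduce hG S0 hS
  apply hfin
  -- abbreviations
  have hC : ∀ p (hp : p ∈ S0) q (hq : q ∈ S0) r (hr : r ∈ S0),
      ⁅⁅f ⟨p, Subgroup.subset_closure hp⟩, f ⟨q, Subgroup.subset_closure hq⟩⁆,
        f ⟨r, Subgroup.subset_closure hr⟩⁆ = 1 := by
    intro p hp q hq r hr
    apply hcen
    intro s hs
    rw [← commutatorElement_eq_one_iff_commute]
    have h := h4 p hp q hq r hr s hs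
    have h' : (⁅⁅⁅(⟨p, Subgroup.subset_closure hp⟩ : closure S0),
        (⟨q, Subgroup.subset_closure hq⟩ : closure S0)⁆,
        (⟨r, Subgroup.subset_closure hr⟩ : closure S0)⁆,
        (⟨s, Subgroup.subset_closure hs⟩ : closure S0)⁆) = 1 := by
      apply Subtype.ext
      simpa [commutatorElement_def] using h
    have := congrArg f h'
    simpa [map_commutatorElement] using this
  have hC2 : ∀ p (hp : p ∈ S0) q (hq : q ∈ S0),
      ⁅f ⟨p, Subgroup.subset_closure hp⟩, f ⟨q, Subgroup.subset_closure hq⟩⁆ = 1 := by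
    intro p hp q hq
    apply hcen
    intro r hr
    exact commutatorElement_eq_one_iff_commute.mp (hC p hp q hq r hr)
  intro p hp
  apply hcen
  intro q hq
  exact commutatorElement_eq_one_iff_commute.mp (hC2 p hp q hq)

theorem mem_closure_finite {A : Set G} {x : G} (hx : x ∈ closure A) :
    ∃ T : Set G, T.Finite ∧ T ⊆ A ∧ x ∈ closure T := by
  induction hx using closure_induction with
  | mem x hx => exact ⟨{x}, Set.finite_singleton x, by simpa using hx,
      Subgroup.subset_closure rfl⟩
  | one => exact ⟨∅, Set.finite_empty, Set.empty_subset _, one_mem _⟩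
  | mul x y _ _ hx hy =>
    obtain ⟨T1, f1, s1, m1⟩ := hx
    obtain ⟨T2, f2, s2, m2⟩ := hy
    exact ⟨T1 ∪ T2, f1.union f2, Set.union_subset s1 s2,
      mul_mem (Subgroup.closure_mono Set.subset_union_left m1)
        (Subgroup.closure_mono Set.subset_union_right m2)⟩
  | inv x _ hx =>
    obtain ⟨T1, f1, s1, m1⟩ := hx
    exact ⟨T1, f1, s1, inv_mem m1⟩

/-- the subgroup generated by the involutions is locally finite -/
theorem LF_invol (hG : HG G) : LF (closure {x : G | I x}) := by
  intro S hS hSc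
  have : ∃ T : Set G, T.Finite ∧ T ⊆ {x : G | I x} ∧ S ⊆ closure T := by
    induction S, hS using Set.Finite.induction_on with
    | empty => exact ⟨∅, Set.finite_empty, Set.empty_subset _, Set.empty_subset _⟩
    | @insert a S ha hS ih =>
      obtain ⟨T, hT, hTA, hST⟩ := ih ((Set.subset_insert _ _).trans hSc)
      obtain ⟨T', hT', hTA', haT'⟩ := mem_closure_finite (hSc (Set.mem_insert _ _))
      refine ⟨T ∪ T', hT.union hT', Set.union_subset hTA hTA', Set.insert_subset ?_ ?_⟩
      · exact Subgroup.closure_mono Set.subset_union_right haT'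
      · exact hST.trans (Subgroup.closure_mono Set.subset_union_left)
  obtain ⟨T, hT, hTA, hST⟩ := this
  exact closure_finite_of_le (fin_invol hG T hT (fun x hx => hTA hx)) hST

instance normal_invol : (closure {x : G | I x}).Normal := by
  refine ⟨?_⟩
  intro n hn g
  induction hn using closure_induction with
  | mem x hx =>
    apply Subgroup.subset_closure
    show g * x * g⁻¹ * (g * x * g⁻¹) = 1
    have : g * x * g⁻¹ * (g * x * g⁻¹) = g * (x * x) * g⁻¹ := by group
    rw [this, show x * x = 1 from hx]; group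
  | one => simp
  | mul x y _ _ hx hy =>
    have : g * (x * y) * g⁻¹ = (g * x * g⁻¹) * (g * y * g⁻¹) := by group
    rw [this]; exact mul_mem hx hy
  | inv x _ hx =>
    have : g * x⁻¹ * g⁻¹ = (g * x * g⁻¹)⁻¹ := by group
    rw [this]; exact inv_mem hx

theorem fin_exp (k : ℕ) : ∀ (G : Type u) [Group G], HG G → ∀ S : Set G, S.Finite →
    (∀ s ∈ S, s ^ (2 ^ k) = 1) → ((closure S : Subgroup G) : Set G).Finite := by
  induction k with
  | zero =>
    intro G _ _ S _ h
    apply closure_finite_of_le (C := (⊥ : Subgroup G)) (by simp)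
    intro s hs
    have := h s hs
    simpa using this
  | succ k ih =>
    intro G _ hG S hS h
    apply finite_of_image_finite (closure {x : G | I x}) (LF_invol hG) S hS
    rw [MonoidHom.map_closure]
    apply ih _ (hG.quotient _ (LF_invol hG)) _ (hS.image _)
    rintro _ ⟨s, hs, rfl⟩
    rw [← map_pow]
    have hI : s ^ (2 ^ k) ∈ closure {x : G | I x} := by
      apply Subgroup.subset_closure
      show s ^ (2 ^ k) * s ^ (2 ^ k) = 1
      rw [← pow_add, ← two_mul, ← pow_succ']
      exact h s hs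
    exact (QuotientGroup.eq_one_iff _).mpr hI

theorem loc_fin (hG : HG G) (S : Set G) (hS : S.Finite) :
    ((closure S : Subgroup G) : Set G).Finite := by
  have : ∃ k : ℕ, ∀ s ∈ S, s ^ (2 ^ k) = 1 := by
    induction S, hS using Set.Finite.induction_on with
    | empty => exact ⟨0, by simp⟩
    | @insert a S ha hS ih =>
      obtain ⟨k, hk⟩ := ih
      obtain ⟨l, hl⟩ := hG.tors a
      refine ⟨k + l, ?_⟩
      intro s hs
      rcases Set.mem_insert_iff.mp hs with rfl | hs
      · rw [pow_add, mul_comm, pow_mul, hl, one_pow]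
      · rw [pow_add, pow_mul, hk s hs, one_pow]
  obtain ⟨k, hk⟩ := this
  exact fin_exp k G hG S hS hk

theorem law (hG : HG G) (x y z w : G) : ⁅⁅⁅x, y⁆, z⁆, w⁆ = 1 :=
  hG.cls _ (loc_fin hG {x, y, z, w} (by simp)) x (Subgroup.subset_closure (by simp)) y
    (Subgroup.subset_closure (by simp)) z (Subgroup.subset_closure (by simp)) w
    (Subgroup.subset_closure (by simp))

theorem nilpotent (hG : HG G) : Group.IsNilpotent G := by
  refine ⟨⟨3, ?_⟩⟩
  rw [eq_top_iff]
  intro x _
  rw [Subgroup.mem_upperCentralSeries_succ_iff]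
  intro y
  rw [Subgroup.mem_upperCentralSeries_succ_iff]
  intro z
  rw [Subgroup.mem_upperCentralSeries_succ_iff]
  intro w
  rw [Subgroup.upperCentralSeries_zero, Subgroup.mem_bot]
  exact law hG x y z w

end Pool.Agent.Work.MP_432615_al
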