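import Mathlib

/-!
# 2-groups whose finite subgroups have class at most 3: basic notions
-/

set_option autoImplicit false

namespace Pool.Agent.Work.MP_432615_al

open Subgroup
open scoped commutatorElement

universe u

/-- Every element has 2-power order and every finite subgroup is nilpotent of class at most 3
(in the form of a commutator law). -/
structure HG (G : Type u) [Group G] : Prop where
  tors : ∀ g : G, ∃ k : ℕ, g ^ (2 ^ k) = 1
  cls : ∀ F : Subgroup G, (F : Set G).Finite → ∀ x ∈ F, ∀ y ∈ F, ∀ z ∈ F, ∀ w ∈ F,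
    ⁅⁅⁅x, y⁆, z⁆, w⁆ = 1

/-- Locally finite subgroup. -/
def LF {G : Type u} [Group G] (N : Subgroup G) : Prop :=
  ∀ S : Set G, S.Finite → S ⊆ N → ((closure S : Subgroup G) : Set G).Finite

variable {G : Type u} [Group G]

/-- If the image of a finitely generated subgroup modulo a locally finite normal subgroup is
finite then it is finite. -/
theorem finite_of_image_finite (N : Subgroup G) [N.Normal] (hN : LF N) (S : Set G) (hS : S.Finite)
    (h : (((closure S).map (QuotientGroup.mk' N) : Subgroup (G ⧸ N)) : Set (G ⧸ N)).Finite) :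
    ((closure S : Subgroup G) : Set G).Finite := by
  set K := closure S with hK
  have hfgK : K.FG := ⟨hS.toFinset, by simp [hK]⟩
  have hKfg : Group.FG K := (Group.fg_iff_subgroup_fg K).mpr hfgK
  -- the kernel of K → G/N
  let φ : K →* G ⧸ N := (QuotientGroup.mk' N).comp K.subtype
  have hrange : (φ.range : Set (G ⧸ N)).Finite := by
    have : φ.range = K.map (QuotientGroup.mk' N) := by
      rw [MonoidHom.range_comp, Subgroup.range_subtype]
    rw [this]; exact h
  have hfin : Finite φ.range := hrange
  have hfi : φ.ker.FiniteIndex := by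
    refine ⟨?_⟩
    rw [Subgroup.index_ker]
    exact Nat.card_pos.ne'
  have hkerfg : Group.FG φ.ker := Subgroup.fg_of_index_ne_zero φ.ker
  have hkerfg' : φ.ker.FG := (Group.fg_iff_subgroup_fg _).mp hkerfg
  obtain ⟨T, hT⟩ := hkerfg'
  have hkerfin : (φ.ker : Set K).Finite := by
    have h1 : ((closure ((fun x : K => (x : G)) '' (T : Set K)) : Subgroup G) : Set G).Finite := by
      apply hN
      · exact T.finite_toSet.image _
      · rintro _ ⟨x, hx, rfl⟩
        have : x ∈ φ.ker := by rw [← hT]; exact subset_closure hx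
        have h2 : QuotientGroup.mk' N (x : G) = 1 := this
        simpa using h2
    have h2 : (closure ((fun x : K => (x : G)) '' (T : Set K)) : Subgroup G) = φ.ker.map K.subtype := by
      rw [← hT, MonoidHom.map_closure]; rfl
    rw [h2] at h1
    have h3 : ((φ.ker : Set K)) ⊆ (fun x : K => (x : G)) ⁻¹' ((φ.ker.map K.subtype : Subgroup G) : Set G) := by
      intro x hx
      exact ⟨x, hx, rfl⟩
    exact (Set.Finite.preimage (Subtype.val_injective.injOn) h1).subset h3
  have hkerfinite : Finite φ.ker := hkerfin
  have hKfin : Finite K := by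
    have := Subgroup.card_mul_index φ.ker
    have hpos : Nat.card K ≠ 0 := by
      rw [← this]
      exact Nat.mul_ne_zero Nat.card_pos.ne' hfi.index_ne_zero
    exact Nat.finite_of_card_ne_zero hpos
  exact hKfin

theorem closure_subset_mem {N : Subgroup G} {S : Set G} (h : S ⊆ N) : closure S ≤ N := by
  rwa [closure_le]

/-- The class is closed under quotients by locally finite normal subgroups. -/
theorem HG.quotient (hG : HG G) (N : Subgroup G) [N.Normal] (hN : LF N) : HG (G ⧸ N) := by
  refine ⟨?_, ?_⟩
  · intro g
    obtain ⟨x, rfl⟩ := QuotientGroup.mk_surjective g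
    obtain ⟨k, hk⟩ := hG.tors x
    refine ⟨k, ?_⟩
    rw [← QuotientGroup.mk_pow, hk]; rfl
  · intro F hF x hx y hy z hz w hw
    obtain ⟨x, rfl⟩ := QuotientGroup.mk_surjective x
    obtain ⟨y, rfl⟩ := QuotientGroup.mk_surjective y
    obtain ⟨z, rfl⟩ := QuotientGroup.mk_surjective z
    obtain ⟨w, rfl⟩ := QuotientGroup.mk_surjective w
    have hfin : ((closure ({x, y, z, w} : Set G) : Subgroup G) : Set G).Finite := by
      apply finite_of_image_finite N hN _ (by simp)
      refine hF.subset ?_
      have : (closure ({x, y, z, w} : Set G)).map (QuotientGroup.mk' N) ≤ F := by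
        rw [MonoidHom.map_closure, closure_le]
        rintro _ ⟨t, ht, rfl⟩
        simp only [Set.mem_insert_iff, Set.mem_singleton_iff] at ht
        rcases ht with rfl | rfl | rfl | rfl <;> assumption
      exact this
    have hl := hG.cls _ hfin x (subset_closure (by simp)) y (subset_closure (by simp)) z
      (subset_closure (by simp)) w (subset_closure (by simp))
    have := congrArg (QuotientGroup.mk' N) hl
    simpa [map_commutatorElement] using this

theorem HG.subgroup (hG : HG G) (K : Subgroup G) : HG K := by
  refine ⟨?_, ?_⟩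
  · intro g
    obtain ⟨k, hk⟩ := hG.tors g
    exact ⟨k, Subtype.ext (by simpa using hk)⟩
  · intro F hF x hx y hy z hz w hw
    have hfin : ((F.map K.subtype : Subgroup G) : Set G).Finite := by
      rw [coe_map]; exact hF.image _
    have := hG.cls _ hfin x ⟨x, hx, rfl⟩ y ⟨y, hy, rfl⟩ z ⟨z, hz, rfl⟩ w ⟨w, hw, rfl⟩
    apply Subtype.ext
    simpa [commutatorElement_def] using this

theorem LF_bot : LF (⊥ : Subgroup G) := by
  intro S hS h
  have : closure S ≤ ⊥ := by rwa [closure_le]
  exact (Set.finite_singleton (1 : G)).subset (fun x hx => by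
    have := this hx
    simpa using this)

/-- the quotient by a maximal locally finite normal subgroup has trivial centre -/
theorem exists_max : ∃ N : Subgroup G, N.Normal ∧ LF N ∧
    ∀ M : Subgroup G, M.Normal → LF M → N ≤ M → M ≤ N := by
  have hz := zorn_le_nonempty₀ {N : Subgroup G | N.Normal ∧ LF N} (by
    intro c hc hchain N0 hN0
    refine ⟨sSup c, ⟨?_, ?_⟩, fun z hz => le_sSup hz⟩
    · refine ⟨?_⟩
      intro n hn g
      rw [Subgroup.mem_sSup_of_directedOn ⟨N0, hN0⟩ hchain.directedOn] at hn ⊢
      obtain ⟨M, hM, hnM⟩ := hn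
      exact ⟨M, hM, (hc hM).1.conj_mem n hnM g⟩
    · intro S hS hSc
      have : ∃ M ∈ c, S ⊆ (M : Set G) := by
        induction S, hS using Set.Finite.induction_on with
        | empty => exact ⟨N0, hN0, by simp⟩
        | @insert a S ha hS ih =>
          obtain ⟨M, hM, hSM⟩ := ih ((Set.subset_insert _ _).trans hSc)
          have ha' : a ∈ sSup c := hSc (Set.mem_insert _ _)
          rw [Subgroup.mem_sSup_of_directedOn ⟨N0, hN0⟩ hchain.directedOn] at ha'
          obtain ⟨M', hM', haM'⟩ := ha'
          rcases hchain.total hM hM' with hle | hle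
          · exact ⟨M', hM', Set.insert_subset haM' (hSM.trans hle)⟩
          · exact ⟨M, hM, Set.insert_subset (hle haM') hSM⟩
      obtain ⟨M, hM, hSM⟩ := this
      exact (hc hM).2 S hS hSM) ⊥ ⟨inferInstance, LF_bot⟩
  obtain ⟨N, -, hN⟩ := hz
  exact ⟨N, hN.prop.1, hN.prop.2, fun M hM1 hM2 hle => hN.le_of_ge ⟨hM1, hM2⟩ hle⟩

/-- Reduction to trivial centre. -/
theorem reduce (hG : HG G) (S : Set G) (hS : S.Finite) :
    ∃ (Q : Type u) (_ : Group Q) (f : closure S →* Q), HG Q ∧
      Function.Surjective f ∧
      (∀ z : Q, (∀ s (hs : s ∈ S), Commute z (f ⟨s, subset_closure hs⟩)) → z = 1) ∧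
      ((∀ s (hs : s ∈ S), f ⟨s, subset_closure hs⟩ = 1) →
        ((closure S : Subgroup G) : Set G).Finite) := by
  set K := closure S with hK
  have hKG : HG K := hG.subgroup K
  obtain ⟨N, hNn, hNlf, hmax⟩ := exists_max (G := K)
  have hgen : closure ((fun x : K => (x : G)) ⁻¹' S) = ⊤ := by
    rw [hK]; exact closure_closure_coe_preimage
  refine ⟨K ⧸ N, inferInstance, QuotientGroup.mk' N, hKG.quotient N hNlf,
    QuotientGroup.mk'_surjective N, ?_, ?_⟩
  · intro z hz
    obtain ⟨z, rfl⟩ := QuotientGroup.mk'_surjective N z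
    -- z commutes with everything mod N
    have hcen : ∀ g : K, (QuotientGroup.mk' N z) * (QuotientGroup.mk' N g)
        = (QuotientGroup.mk' N g) * (QuotientGroup.mk' N z) := by
      intro g
      have hg : g ∈ closure ((fun x : K => (x : G)) ⁻¹' S) := by rw [hgen]; trivial
      induction hg using closure_induction with
      | mem x hx => exact hz x hx
      | one => simp
      | mul x y _ _ hx hy => rw [map_mul, ← mul_assoc, hx, mul_assoc, hy, mul_assoc]
      | inv x _ hx =>
        rw [map_inv]
        exact (Commute.inv_right (show Commute (QuotientGroup.mk' N z) (QuotientGroup.mk' N x) from hx))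
    let M : Subgroup K := N ⊔ zpowers z
    have hMn : M.Normal := by
      refine ⟨?_⟩
      intro m hm g
      obtain ⟨n, hn, w, hw, rfl⟩ := Subgroup.mem_sup_of_normal_left.mp hm
      obtain ⟨i, rfl⟩ := mem_zpowers_iff.mp hw
      have h1 : g * (n * z ^ i) * g⁻¹ = (g * n * g⁻¹) * (g * z ^ i * g⁻¹ * (z ^ i)⁻¹) * z ^ i := by
        group
      have h2 : g * z ^ i * g⁻¹ * (z ^ i)⁻¹ ∈ N := by
        rw [← QuotientGroup.ker_mk' N, MonoidHom.mem_ker]
        simp only [map_mul, map_inv, map_zpow]
        have hc : Commute (QuotientGroup.mk' N g) (QuotientGroup.mk' N z) := (hcen g).symm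
        have hc2 := hc.zpow_right i
        rw [hc2.eq]; group
      rw [h1]
      exact Subgroup.mul_mem_sup (mul_mem (hNn.conj_mem n hn g) h2) (zpow_mem_zpowers z i)
    have hMlf : LF M := by
      intro T hT hTM
      apply finite_of_image_finite N hNlf T hT
      have hle : (closure T).map (QuotientGroup.mk' N) ≤ zpowers (QuotientGroup.mk' N z) := by
        refine (Subgroup.map_mono (closure_subset_mem hTM)).trans ?_
        rw [Subgroup.map_sup, sup_le_iff]
        constructor
        · rw [QuotientGroup.map_mk'_self]; exact bot_le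
        · rw [MonoidHom.map_zpowers]
      have hfz : ((zpowers (QuotientGroup.mk' N z) : Subgroup (K ⧸ N)) : Set (K ⧸ N)).Finite := by
        obtain ⟨k, hk⟩ := (hKG.quotient N hNlf).tors (QuotientGroup.mk' N z)
        have : IsOfFinOrder (QuotientGroup.mk' N z) :=
          isOfFinOrder_iff_pow_eq_one.mpr ⟨2 ^ k, by positivity, hk⟩
        exact this.finite_zpowers
      exact hfz.subset hle
    have hz' : z ∈ N := hmax M hMn hMlf le_sup_left (Subgroup.mem_sup_right (mem_zpowers z))
    have : z ∈ (QuotientGroup.mk' N).ker := by rw [QuotientGroup.ker_mk']; exact hz'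
    exact this
  · intro h
    have hS' : (fun x : K => (x : G)) ⁻¹' S ⊆ (N : Set K) := by
      intro x hx
      have := h x hx
      have h2 : x ∈ (QuotientGroup.mk' N).ker := this
      rwa [QuotientGroup.ker_mk'] at h2
    have hfin : ((fun x : K => (x : G)) ⁻¹' S).Finite :=
      Set.Finite.preimage Subtype.val_injective.injOn hS
    have h3 := hNlf _ hfin hS'
    rw [hgen] at h3
    have : Finite K := by
      rw [Subgroup.coe_top] at h3
      exact Set.finite_univ_iff.mp h3
    exact this

end Pool.Agent.Work.MP_432615_al
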