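import Pool.Agent.Work.MP_432615_al.Pack

/-!
# Finiteness lemmas: dihedral groups, normal products, the affine group lemma
-/

set_option autoImplicit false

namespace Pool.Agent.Work.MP_432615_al

open Subgroup
open scoped commutatorElement

universe u

variable {G : Type u} [Group G]

theorem finite_prod (A B : Subgroup G) (hA : (A : Set G).Finite) (hB : (B : Set G).Finite)
    (hn : ∀ b ∈ B, ∀ a ∈ A, b * a * b⁻¹ ∈ A) :
    ∃ C : Subgroup G, (C : Set G).Finite ∧ A ≤ C ∧ B ≤ C := by
  refine ⟨{ carrier := {g | ∃ a ∈ A, ∃ b ∈ B, g = a * b}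
            mul_mem' := ?_, one_mem' := ⟨1, A.one_mem, 1, B.one_mem, by simp⟩, inv_mem' := ?_ },
    ?_, ?_, ?_⟩
  · rintro _ _ ⟨a, ha, b, hb, rfl⟩ ⟨a', ha', b', hb', rfl⟩
    exact ⟨a * (b * a' * b⁻¹), mul_mem ha (hn b hb a' ha'), b * b', mul_mem hb hb', by group⟩
  · rintro _ ⟨a, ha, b, hb, rfl⟩
    refine ⟨b⁻¹ * a⁻¹ * b, ?_, b⁻¹, inv_mem hb, by group⟩
    have := hn b⁻¹ (inv_mem hb) a⁻¹ (inv_mem ha)
    simpa using this
  · have : {g : G | ∃ a ∈ A, ∃ b ∈ B, g = a * b} ⊆ Set.image2 (· * ·) (A : Set G) (B : Set G) := by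
      rintro _ ⟨a, ha, b, hb, rfl⟩
      exact ⟨a, ha, b, hb, rfl⟩
    exact (hA.image2 _ hB).subset this
  · intro a ha; exact ⟨a, ha, 1, B.one_mem, by simp⟩
  · intro b hb; exact ⟨1, A.one_mem, b, hb, by simp⟩

theorem closure_finite_of_le {S : Set G} {C : Subgroup G} (hC : (C : Set G).Finite)
    (h : S ⊆ C) : ((closure S : Subgroup G) : Set G).Finite :=
  hC.subset (closure_subset_mem h)

theorem normal_of_gens (S T : Set G) (h : ∀ t ∈ T, ∀ s ∈ S, t * s * t ∈ closure S)
    (hT : ∀ t ∈ T, I t) : ∀ b ∈ closure T, ∀ a ∈ closure S, b * a * b⁻¹ ∈ closure S := by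
  have gen : ∀ t ∈ T, ∀ a ∈ closure S, t * a * t⁻¹ ∈ closure S := by
    intro t ht a ha
    induction ha using closure_induction with
    | mem x hx => rw [inv_eq_self (hT t ht)]; exact h t ht x hx
    | one => simp
    | mul x y _ _ hx hy =>
      have : t * (x * y) * t⁻¹ = (t * x * t⁻¹) * (t * y * t⁻¹) := by group
      rw [this]; exact mul_mem hx hy
    | inv x _ hx =>
      have : t * x⁻¹ * t⁻¹ = (t * x * t⁻¹)⁻¹ := by group
      rw [this]; exact inv_mem hx
  have main : ∀ y ∈ closure T, ∀ a ∈ closure S,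
      y * a * y⁻¹ ∈ closure S ∧ y⁻¹ * a * y ∈ closure S := by
    intro y hy
    induction hy using closure_induction with
    | mem z hz =>
      intro a ha
      have h1 := gen z hz a ha
      refine ⟨h1, ?_⟩
      rw [inv_eq_self (hT z hz)] at h1 ⊢
      exact h1
    | one => intro a ha; simpa using ha
    | mul z w _ _ hz hw =>
      intro a ha
      refine ⟨?_, ?_⟩
      · have : z * w * a * (z * w)⁻¹ = z * (w * a * w⁻¹) * z⁻¹ := by group
        rw [this]; exact (hz _ (hw a ha).1).1
      · have : (z * w)⁻¹ * a * (z * w) = w⁻¹ * (z⁻¹ * a * z) * w := by group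
        rw [this]; exact (hw _ (hz a ha).2).2
    | inv z _ hz =>
      intro a ha
      refine ⟨?_, ?_⟩
      · rw [inv_inv]; exact (hz a ha).2
      · rw [inv_inv]; exact (hz a ha).1
  exact fun b hb a ha => (main b hb a ha).1

/-- closure of the union of two finite subgroups, one normalised by the involutions generating
the other. -/
theorem fin_ext {S T : Set G} (hS : ((closure S : Subgroup G) : Set G).Finite)
    (hT : ((closure T : Subgroup G) : Set G).Finite) (hTI : ∀ t ∈ T, I t)
    (h : ∀ t ∈ T, ∀ s ∈ S, t * s * t ∈ closure S) :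
    ((closure (S ∪ T) : Subgroup G) : Set G).Finite := by
  obtain ⟨C, hC, h1, h2⟩ := finite_prod (closure S) (closure T) hS hT
    (normal_of_gens S T h hTI)
  refine closure_finite_of_le hC (Set.union_subset ?_ ?_)
  · exact subset_closure.trans h1
  · exact subset_closure.trans h2

theorem fin_pair (hG : HG G) {p q : G} (hp : I p) (hq : I q) :
    ((closure ({p, q} : Set G) : Subgroup G) : Set G).Finite := by
  have hfo : ∀ g : G, ((zpowers g : Subgroup G) : Set G).Finite := by
    intro g
    obtain ⟨k, hk⟩ := hG.tors g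
    exact (isOfFinOrder_iff_pow_eq_one.mpr ⟨2 ^ k, by positivity, hk⟩).finite_zpowers
  obtain ⟨C, hC, h1, h2⟩ := finite_prod (zpowers (p * q)) (zpowers p) (hfo _) (hfo _) (by
    have e1 : p * (p * q) * p⁻¹ = (p * q)⁻¹ := by
      rw [cancel_l hp, mul_inv_rev, inv_eq_self hp, inv_eq_self hq]
    have e2 : p⁻¹ * (p * q) * p = (p * q)⁻¹ := by
      rw [inv_eq_self hp] at e1 ⊢; exact e1
    have key : ∀ a ∈ zpowers (p * q), p * a * p⁻¹ ∈ zpowers (p * q) := by
      intro a ha
      obtain ⟨i, rfl⟩ := mem_zpowers_iff.mp ha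
      rw [← conj_zpow, e1]
      exact zpow_mem (inv_mem (mem_zpowers _)) i
    intro b hb
    obtain ⟨j, rfl⟩ := mem_zpowers_iff.mp hb
    intro a ha
    have hp2 : p ^ (2 : ℤ) = 1 := by rw [zpow_two]; exact hp
    rcases Int.even_or_odd' j with ⟨m, rfl | rfl⟩
    · rw [zpow_mul, hp2, one_zpow]; simpa using ha
    · rw [zpow_add, zpow_mul, hp2, one_zpow, one_mul, zpow_one]; exact key a ha)
  refine closure_finite_of_le hC ?_
  intro x hx
  simp only [Set.mem_insert_iff, Set.mem_singleton_iff] at hx
  rcases hx with rfl | rfl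
  · exact h2 (mem_zpowers _)
  · have : x = p * (p * x) := (cancel_l hp x).symm
    rw [this]
    exact C.mul_mem (h2 (mem_zpowers _)) (h1 (mem_zpowers _))

/-- `z p q = (p q)^4` -/
def z (p q : G) : G := c p q * c p q

theorem c_inv_conj {p q : G} (hp : I p) (hq : I q) : q * (c p q)⁻¹ * q = c p q := by
  rw [← c_swap_inv hq hp]
  simp only [c, mul_assoc]; rw [cancel_l hq]

theorem br_c {p q : G} (hp : I p) (hq : I q) : ⁅c p q, q⁆ = z p q := by
  rw [commutatorElement_def, inv_eq_self hq, z]
  calc c p q * q * (c p q)⁻¹ * q = c p q * (q * (c p q)⁻¹ * q) := by group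
    _ = c p q * c p q := by rw [c_inv_conj hp hq]

theorem br_z {p q : G} (hp : I p) (hq : I q) : ⁅z p q, q⁆ = z p q * z p q := by
  rw [commutatorElement_def, inv_eq_self hq, z]
  calc c p q * c p q * q * (c p q * c p q)⁻¹ * q
      = c p q * c p q * ((q * (c p q)⁻¹ * (q * q) * (c p q)⁻¹ * q)) := by rw [hq]; group
    _ = c p q * c p q * ((q * (c p q)⁻¹ * q) * (q * (c p q)⁻¹ * q)) := by group
    _ = _ := by rw [c_inv_conj hp hq]

/-- products of two involutions have order dividing 8 -/
theorem I_z (hG : HG G) {p q : G} (hp : I p) (hq : I q) : I (z p q) := by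
  have h := hG.cls _ (fin_pair hG hp hq) p (subset_closure (by simp)) q (subset_closure (by simp))
    q (subset_closure (by simp)) q (subset_closure (by simp))
  rw [comm_eq_c hp hq, br_c hp hq, br_z hp hq] at h
  exact h

theorem z_of_I {p q : G} (h : I (c p q)) : z p q = 1 := h

/-- `(pq)^4` is central in every finite subgroup containing `p`, `q` -/
theorem z_comm (hG : HG G) {F : Subgroup G} (hF : (F : Set G).Finite) {p q x : G}
    (hp : I p) (hq : I q) (mp : p ∈ F) (mq : q ∈ F) (mx : x ∈ F) : Commute (z p q) x := by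
  have := Cl3.cen (hG.cls F hF) mp mq mq mx
  rwa [comm_eq_c hp hq, br_c hp hq] at this

/-- the affine lemma -/
theorem fin44 (hG : HG G) {u v w : G} (hu : I u) (hv : I v) (hw : I w) (huv : Commute u v)
    (h1 : I (c u w)) (h2 : I (c v w)) :
    ((closure ({u, v, w} : Set G) : Subgroup G) : Set G).Finite := by
  -- the four conjugates of w
  have huw := c_I_symm hu hw h1
  have hvw := c_I_symm hv hw h2
  set w2 := u * w * u with hw2
  set w3 := v * w * v with hw3
  set w4 := u * (v * w * v) * u with hw4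
  have I2 : I w2 := I_conj hw hu
  have I3 : I w3 := I_conj hw hv
  have I4 : I w4 := I_conj (I_conj hw hv) hu
  have e4 : w4 = v * w2 * v := by
    rw [hw4, hw2]
    calc u * (v * w * v) * u = (u * v) * w * (v * u) := by group
      _ = (v * u) * w * (u * v) := by rw [huv.eq]
      _ = _ := by group
  have c12 : Commute w w2 := by
    apply commute_of_c hw I2
    have : c w w2 = c w u * c w u := by simp only [c, hw2, mul_assoc]
    rw [this]; exact huw
  have c13 : Commute w w3 := by
    apply commute_of_c hw I3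
    have : c w w3 = c w v * c w v := by simp only [c, hw3, mul_assoc]
    rw [this]; exact hvw
  have c34 : Commute w3 w4 := by
    have h := c12
    have : Commute (v * w * v⁻¹) (v * w2 * v⁻¹) := by
      show v * w * v⁻¹ * (v * w2 * v⁻¹) = v * w2 * v⁻¹ * (v * w * v⁻¹)
      have := congrArg (fun t => v * t * v⁻¹) h.eq
      simpa [mul_assoc] using this
    rwa [inv_eq_self hv, ← e4] at this
  have c24 : Commute w2 w4 := by
    have h := c13
    have : Commute (u * w * u⁻¹) (u * w3 * u⁻¹) := by
      show u * w * u⁻¹ * (u * w3 * u⁻¹) = u * w3 * u⁻¹ * (u * w * u⁻¹)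
      have := congrArg (fun t => u * t * u⁻¹) h.eq
      simpa [mul_assoc] using this
    rwa [inv_eq_self hu] at this
  have hfS := fin_pair hG hw I4
  have hfT := fin_pair hG I2 I3
  have cc : ∀ t ∈ ({w2, w3} : Set G), ∀ s ∈ ({w, w4} : Set G), Commute t s := by
    intro t ht s hs
    simp only [Set.mem_insert_iff, Set.mem_singleton_iff] at ht hs
    rcases ht with rfl | rfl <;> rcases hs with rfl | rfl
    · exact c12.symm
    · exact c24
    · exact c13.symm
    · exact c34
  have IT : ∀ t ∈ ({w2, w3} : Set G), I t := by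
    intro t ht
    simp only [Set.mem_insert_iff, Set.mem_singleton_iff] at ht
    rcases ht with rfl | rfl <;> assumption
  have hf4 := fin_ext hfS hfT IT (by
    intro t ht s hs
    rw [(cc t ht s hs).eq, mul_assoc, IT t ht, mul_one]
    exact Subgroup.subset_closure hs)
  have IU : ∀ t ∈ ({u, v} : Set G), I t := by
    intro t ht
    simp only [Set.mem_insert_iff, Set.mem_singleton_iff] at ht
    rcases ht with rfl | rfl <;> assumption
  have conj_conj : ∀ {t x : G}, I t → t * (t * x * t) * t = x := by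
    intro t x ht
    calc t * (t * x * t) * t = (t * t) * x * (t * t) := by group
      _ = x := by rw [ht]; simp
  have hfU := fin_pair hG hu hv
  have hf6 := fin_ext hf4 hfU IU (by
    intro t ht s hs
    apply Subgroup.subset_closure
    simp only [Set.mem_insert_iff, Set.mem_singleton_iff, Set.mem_union] at ht hs ⊢
    rcases ht with rfl | rfl <;> rcases hs with (rfl | rfl) | (rfl | rfl)
    · right; left; rfl
    · right; right; rw [hw4]; exact conj_conj hu
    · left; left; exact conj_conj hu
    · left; right; rfl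
    · right; right; rfl
    · right; left; rw [e4]; exact conj_conj hv
    · left; right; rw [e4]
    · left; left; exact conj_conj hv)
  refine closure_finite_of_le hf6 ?_
  intro x hx
  apply Subgroup.subset_closure
  simp only [Set.mem_insert_iff, Set.mem_singleton_iff, Set.mem_union] at hx ⊢
  tauto

/-- The basic tool. -/
theorem S44 (hG : HG G) {u v w : G} (hu : I u) (hv : I v) (hw : I w) (huv : Commute u v)
    (h1 : I (c u w)) (h2 : I (c v w)) :
    Commute (c u w) (c v w) ∧ c (c u w) v = c (c v w) u ∧ I (c (c u w) v) ∧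
      Commute (c (c u w) v) u ∧ Commute (c (c u w) v) v ∧ Commute (c (c u w) v) w :=
  pack hG hu hv hw huv h1 h2 (fin44 hG hu hv hw huv h1 h2)

end Pool.Agent.Work.MP_432615_al
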