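import Pool.Agent.Work.MP_432615_al.Fin

/-!
# The first key lemma: four involutions, two commuting pairs
-/

set_option autoImplicit false

namespace Pool.Agent.Work.MP_432615_al

open Subgroup
open scoped commutatorElement

universe u

variable {G : Type u} [Group G]

theorem S (hG : HG G) {u v w e f : G} (hu : I u) (hv : I v) (hw : I w) (huv : Commute u v)
    (he : c u w = e) (hf : c v w = f) (Ie : I e) (If : I f) :
    Commute e f ∧ c e v = c f u ∧ I (c e v) ∧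
      Commute (c e v) u ∧ Commute (c e v) v ∧ Commute (c e v) w := by
  subst he; subst hf
  exact S44 hG hu hv hw huv Ie If

theorem cs {p q e : G} (hp : I p) (hq : I q) (h : c p q = e) (Ie : I e) : c q p = e := by
  subst h; exact (c_symm hp hq Ie).symm

theorem cl {p q e : G} (hp : I p) (hq : I q) (h : c p q = e) (Ie : I e) : Commute e p := by
  subst h; exact c_comm_left hp hq Ie

theorem cr {p q e : G} (hp : I p) (hq : I q) (h : c p q = e) (Ie : I e) : Commute e q := by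
  subst h; exact c_comm_right hp hq Ie

/-- `c p q` commutes with whatever commutes with `p` and `q` -/
theorem cc {p q e x : G} (h : c p q = e) (h1 : Commute p x) (h2 : Commute q x) : Commute e x := by
  subst h
  exact ((h1.mul_left h2).mul_left h1).mul_left h2

theorem one_of_eq {p q : G} (h : p = q) (hp : p = 1) : q = 1 := h ▸ hp

theorem rho_step {k3 e b d k eps : G} (Ik3 : I k3) (he : I e) (hb : I b) (hd : I d)
    (heps : I eps)
    (h3 : c e b = k3) (h1 : c e d = k) (h2 : c b d = eps) (ce : Commute eps e)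
    (ck : Commute eps k) (cb : Commute eps b) (cke : Commute k e) (ck3 : Commute k k3) :
    c k3 d = c k b := by
  have a1 : d * k3 * d = k3 * c k3 d := conj_eq Ik3
  have a2 : d * e * d = e * k := by rw [conj_eq he, h1]
  have a3 : d * b * d = b * eps := by rw [conj_eq hb, h2]
  have a4 : d * k3 * d = (d * e * d) * (d * b * d) * (d * e * d) * (d * b * d) := by
    rw [← h3]
    have e1 : (d * e * d) * (d * b * d) * (d * e * d) * (d * b * d)
        = d * e * (d * d) * b * (d * d) * e * (d * d) * b * d := by group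
    rw [e1, hd]; simp only [c, mul_assoc, one_mul]
  rw [a2, a3] at a4
  have a5 : e * k * (b * eps) * (e * k) * (b * eps) = k3 * c k b := by
    have s1 : Commute eps (e * k * b) := (ce.mul_right ck).mul_right cb
    calc e * k * (b * eps) * (e * k) * (b * eps)
        = e * k * b * (eps * (e * k * b)) * eps := by group
      _ = e * k * b * ((e * k * b) * eps) * eps := by rw [s1.eq]
      _ = e * k * b * (e * k * b) * (eps * eps) := by group
      _ = e * k * b * (e * k * b) := by rw [heps, mul_one]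
      _ = (e * k) * b * e * k * b := by group
      _ = (k * e) * b * e * k * b := by rw [cke.eq]
      _ = (k * e) * b * e * (b * b) * k * b := by rw [hb, mul_one]
      _ = k * (e * b * e * b) * (b * k * b) := by group
      _ = k * k3 * (b * k * b) := by rw [← h3]; rfl
      _ = k3 * k * (b * k * b) := by rw [ck3.eq]
      _ = k3 * c k b := by simp only [c, mul_assoc]
  rw [a5, a1] at a4
  exact mul_left_cancel a4

theorem lemQ (hG : HG G) {b1 b2 b3 b4 : G} (I1 : I b1) (I2 : I b2) (I3 : I b3) (I4 : I b4)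
    (h12 : Commute b1 b2) (h34 : Commute b3 b4)
    (o13 : I (c b1 b3)) (o14 : I (c b1 b4)) (o23 : I (c b2 b3)) (o24 : I (c b2 b4))
    (t1 : I (c (c b1 b3) (c b2 b4))) (t2 : I (c (c b1 b4) (c b2 b3)))
    (hc : ∀ t : G, Commute t b1 → Commute t b2 → Commute t b3 → Commute t b4 → t = 1) :
    b1 = 1 ∧ b2 = 1 ∧ b3 = 1 ∧ b4 = 1 := by
  obtain ⟨e13, E13⟩ : ∃ e, c b1 b3 = e := ⟨_, rfl⟩
  obtain ⟨e14, E14⟩ : ∃ e, c b1 b4 = e := ⟨_, rfl⟩
  obtain ⟨e23, E23⟩ : ∃ e, c b2 b3 = e := ⟨_, rfl⟩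
  obtain ⟨e24, E24⟩ : ∃ e, c b2 b4 = e := ⟨_, rfl⟩
  rw [E13] at o13 t1; rw [E14] at o14 t2; rw [E23] at o23 t2; rw [E24] at o24 t1
  have E31 := cs I1 I3 E13 o13
  have E41 := cs I1 I4 E14 o14
  have E32 := cs I2 I3 E23 o23
  have E42 := cs I2 I4 E24 o24
  have e13_1 := cl I1 I3 E13 o13
  have e13_3 := cr I1 I3 E13 o13
  have e14_1 := cl I1 I4 E14 o14
  have e14_4 := cr I1 I4 E14 o14
  have e23_2 := cl I2 I3 E23 o23
  have e23_3 := cr I2 I3 E23 o23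
  have e24_2 := cl I2 I4 E24 o24
  have e24_4 := cr I2 I4 E24 o24
  -- level 1
  obtain ⟨k3, K3⟩ : ∃ k, c e13 b2 = k := ⟨_, rfl⟩
  obtain ⟨k4, K4⟩ : ∃ k, c e14 b2 = k := ⟨_, rfl⟩
  obtain ⟨k1, K1⟩ : ∃ k, c e13 b4 = k := ⟨_, rfl⟩
  obtain ⟨k2, K2⟩ : ∃ k, c e23 b4 = k := ⟨_, rfl⟩
  obtain ⟨x13_23, K3', ik3, k3_1, k3_2, k3_3⟩ := S hG I1 I2 I3 h12 E13 E23 o13 o23
  obtain ⟨x14_24, K4', ik4, k4_1, k4_2, k4_4⟩ := S hG I1 I2 I4 h12 E14 E24 o14 o24
  obtain ⟨x13_14, K1', ik1, k1_3, k1_4, k1_1⟩ := S hG I3 I4 I1 h34 E31 E41 o13 o14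
  obtain ⟨x23_24, K2', ik2, k2_3, k2_4, k2_2⟩ := S hG I3 I4 I2 h34 E32 E42 o23 o24
  rw [K3] at K3' ik3 k3_1 k3_2 k3_3
  rw [K4] at K4' ik4 k4_1 k4_2 k4_4
  rw [K1] at K1' ik1 k1_3 k1_4 k1_1
  rw [K2] at K2' ik2 k2_3 k2_4 k2_2
  replace K3' := K3'.symm  -- c e23 b1 = k3
  replace K4' := K4'.symm  -- c e24 b1 = k4
  replace K1' := K1'.symm  -- c e14 b3 = k1
  replace K2' := K2'.symm  -- c e24 b3 = k2
  have K3s := cs o13 I2 K3 ik3
  have K3s' := cs o23 I1 K3' ik3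
  have K4s := cs o14 I2 K4 ik4
  have K4s' := cs o24 I1 K4' ik4
  have K1s := cs o13 I4 K1 ik1
  have K1s' := cs o14 I3 K1' ik1
  have K2s := cs o23 I4 K2 ik2
  have K2s' := cs o24 I3 K2' ik2
  -- level 2
  obtain ⟨l2, L2⟩ : ∃ k, c k3 e14 = k := ⟨_, rfl⟩
  obtain ⟨l1, L1⟩ : ∃ k, c k3 e24 = k := ⟨_, rfl⟩
  obtain ⟨l4, L4⟩ : ∃ k, c k1 e23 = k := ⟨_, rfl⟩
  obtain ⟨l3, L3⟩ : ∃ k, c k1 e24 = k := ⟨_, rfl⟩
  obtain ⟨x34, L2', il2, l2_13, l2_14, l2_2⟩ := S hG o13 o14 I2 x13_14 K3 K4 ik3 ik4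
  obtain ⟨-, L1', il1, l1_23, l1_24, l1_1⟩ := S hG o23 o24 I1 x23_24 K3' K4' ik3 ik4
  obtain ⟨x12, L4', il4, l4_13, l4_23, l4_4⟩ := S hG o13 o23 I4 x13_23 K1 K2 ik1 ik2
  obtain ⟨-, L3', il3, l3_14, l3_24, l3_3⟩ := S hG o14 o24 I3 x14_24 K1' K2' ik1 ik2
  rw [L2] at L2' il2 l2_13 l2_14 l2_2
  rw [L1] at L1' il1 l1_23 l1_24 l1_1
  rw [L4] at L4' il4 l4_13 l4_23 l4_4
  rw [L3] at L3' il3 l3_14 l3_24 l3_3
  replace L2' := L2'.symm -- c k4 e13 = l2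
  replace L1' := L1'.symm -- c k4 e23 = l1
  replace L4' := L4'.symm -- c k2 e13 = l4
  replace L3' := L3'.symm -- c k2 e14 = l3
  -- level 3
  obtain ⟨th, TH⟩ : ∃ k, c e13 e24 = k := ⟨_, rfl⟩
  obtain ⟨th', TH'⟩ : ∃ k, c e14 e23 = k := ⟨_, rfl⟩
  rw [TH] at t1; rw [TH'] at t2
  have THs := cs o13 o24 TH t1
  have THs' := cs o14 o23 TH' t2
  obtain ⟨-, T2, -, -, l1_2, l1_13⟩ := S hG o24 I2 o13 e24_2 THs K3s t1 ik3
  rw [T2, L1] at l1_2 l1_13; rw [L1] at T2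
  obtain ⟨-, T4, -, -, l3_4, l3_13⟩ := S hG o24 I4 o13 e24_4 THs K1s t1 ik1
  rw [T4, L3] at l3_4 l3_13; rw [L3] at T4
  obtain ⟨-, T1, -, -, l2_1, l2_24⟩ := S hG o13 I1 o24 e13_1 TH K4s' t1 ik4
  rw [T1, L2'] at l2_1 l2_24; rw [L2'] at T1
  obtain ⟨-, T3, -, -, l4_3, l4_24⟩ := S hG o13 I3 o24 e13_3 TH K2s' t1 ik2
  rw [T3, L4'] at l4_3 l4_24; rw [L4'] at T3
  obtain ⟨-, T2', -, -, -, l1_14⟩ := S hG o23 I2 o14 e23_2 THs' K4s t2 ik4
  rw [T2', L1'] at l1_14; rw [L1'] at T2'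
  obtain ⟨-, T3', -, -, -, l4_14⟩ := S hG o23 I3 o14 e23_3 THs' K1s' t2 ik1
  rw [T3', L4] at l4_14; rw [L4] at T3'
  obtain ⟨-, T1', -, -, -, l2_23⟩ := S hG o14 I1 o23 e14_1 TH' K3s' t2 ik3
  rw [T1', L2] at l2_23; rw [L2] at T1'
  obtain ⟨-, T4', -, -, -, l3_23⟩ := S hG o14 I4 o23 e14_4 TH' K2s t2 ik2
  rw [T4', L3'] at l3_23; rw [L3'] at T4'
  -- level 4 : mu = c l2 b3
  have mu1 : c l2 b3 = 1 ∧ c l4 b1 = 1 ∧ c k1 k3 = 1 := by
    obtain ⟨-, M1, im, -, m_3, -⟩ := S hG ik3 I3 o14 k3_3 L2 K1s' il2 ik1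
    obtain ⟨-, M2, -, -, -, -⟩ := S hG il2 I2 I3 l2_2 rfl E23 im o23
    obtain ⟨-, M3, -, -, -, -⟩ := S hG il2 I1 I3 l2_1 rfl E13 im o13
    obtain ⟨-, M4, im', -, -, -⟩ := S hG ik1 I1 o23 k1_1 L4 K3s' il4 ik3
    obtain ⟨-, M5, -, -, -, -⟩ := S hG il4 I4 I1 l4_4 rfl E41 im' o14
    have q2 : Commute (c l2 b3) b2 :=
      commute_of_c im I2 (by rw [M2]; exact c_eq_one o23 il2 l2_23.symm)
    have q1 : Commute (c l2 b3) b1 :=
      commute_of_c im I1 (by rw [M3]; exact c_eq_one o13 il2 l2_13.symm)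
    have hh : c l2 b3 = c l4 b1 := by
      rw [M1, M4]; exact c_symm ik1 ik3 (by rw [← M1]; exact im)
    have q4 : Commute (c l2 b3) b4 := by
      rw [hh]
      exact commute_of_c im' I4 (by rw [M5]; exact c_eq_one o14 il4 l4_14.symm)
    have := hc _ q1 q2 m_3 q4
    exact ⟨this, hh ▸ this, M1 ▸ this⟩
  have nu1 : c l2 b4 = 1 ∧ c l3 b1 = 1 ∧ c k1 k4 = 1 := by
    obtain ⟨-, M1, im, -, m_4, -⟩ := S hG ik4 I4 o13 k4_4 L2' K1s il2 ik1
    obtain ⟨-, M2, -, -, -, -⟩ := S hG il2 I2 I4 l2_2 rfl E24 im o24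
    obtain ⟨-, M3, -, -, -, -⟩ := S hG il2 I1 I4 l2_1 rfl E14 im o14
    obtain ⟨-, M4, im', -, -, -⟩ := S hG ik1 I1 o24 k1_1 L3 K4s' il3 ik4
    obtain ⟨-, M5, -, -, -, -⟩ := S hG il3 I3 I1 l3_3 rfl E31 im' o13
    have q2 : Commute (c l2 b4) b2 :=
      commute_of_c im I2 (by rw [M2]; exact c_eq_one o24 il2 l2_24.symm)
    have q1 : Commute (c l2 b4) b1 :=
      commute_of_c im I1 (by rw [M3]; exact c_eq_one o14 il2 l2_14.symm)
    have hh : c l2 b4 = c l3 b1 := by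
      rw [M1, M4]; exact c_symm ik1 ik4 (by rw [← M1]; exact im)
    have q3 : Commute (c l2 b4) b3 := by
      rw [hh]
      exact commute_of_c im' I3 (by rw [M5]; exact c_eq_one o13 il3 l3_13.symm)
    have := hc _ q1 q2 q3 m_4
    exact ⟨this, hh ▸ this, M1 ▸ this⟩
  have mu2 : c l1 b3 = 1 ∧ c l4 b2 = 1 ∧ c k2 k3 = 1 := by
    obtain ⟨-, M1, im, -, m_3, -⟩ := S hG ik3 I3 o24 k3_3 L1 K2s' il1 ik2
    obtain ⟨-, M2, -, -, -, -⟩ := S hG il1 I2 I3 l1_2 rfl E23 im o23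
    obtain ⟨-, M3, -, -, -, -⟩ := S hG il1 I1 I3 l1_1 rfl E13 im o13
    obtain ⟨-, M4, im', -, -, -⟩ := S hG ik2 I2 o13 k2_2 L4' K3s il4 ik3
    obtain ⟨-, M5, -, -, -, -⟩ := S hG il4 I4 I2 l4_4 rfl E42 im' o24
    have q2 : Commute (c l1 b3) b2 :=
      commute_of_c im I2 (by rw [M2]; exact c_eq_one o23 il1 l1_23.symm)
    have q1 : Commute (c l1 b3) b1 :=
      commute_of_c im I1 (by rw [M3]; exact c_eq_one o13 il1 l1_13.symm)
    have hh : c l1 b3 = c l4 b2 := by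
      rw [M1, M4]; exact c_symm ik2 ik3 (by rw [← M1]; exact im)
    have q4 : Commute (c l1 b3) b4 := by
      rw [hh]
      exact commute_of_c im' I4 (by rw [M5]; exact c_eq_one o24 il4 l4_24.symm)
    have := hc _ q1 q2 m_3 q4
    exact ⟨this, hh ▸ this, M1 ▸ this⟩
  have nu2 : c l1 b4 = 1 ∧ c l3 b2 = 1 ∧ c k2 k4 = 1 := by
    obtain ⟨-, M1, im, -, m_4, -⟩ := S hG ik4 I4 o23 k4_4 L1' K2s il1 ik2
    obtain ⟨-, M2, -, -, -, -⟩ := S hG il1 I2 I4 l1_2 rfl E24 im o24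
    obtain ⟨-, M3, -, -, -, -⟩ := S hG il1 I1 I4 l1_1 rfl E14 im o14
    obtain ⟨-, M4, im', -, -, -⟩ := S hG ik2 I2 o14 k2_2 L3' K4s il3 ik4
    obtain ⟨-, M5, -, -, -, -⟩ := S hG il3 I3 I2 l3_3 rfl E32 im' o23
    have q2 : Commute (c l1 b4) b2 :=
      commute_of_c im I2 (by rw [M2]; exact c_eq_one o24 il1 l1_24.symm)
    have q1 : Commute (c l1 b4) b1 :=
      commute_of_c im I1 (by rw [M3]; exact c_eq_one o14 il1 l1_14.symm)
    have hh : c l1 b4 = c l3 b2 := by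
      rw [M1, M4]; exact c_symm ik2 ik4 (by rw [← M1]; exact im)
    have q3 : Commute (c l1 b4) b3 := by
      rw [hh]
      exact commute_of_c im' I3 (by rw [M5]; exact c_eq_one o23 il3 l3_23.symm)
    have := hc _ q1 q2 q3 m_4
    exact ⟨this, hh ▸ this, M1 ▸ this⟩
  obtain ⟨l2b3, l4b1, k13⟩ := mu1
  obtain ⟨l2b4, l3b1, k14⟩ := nu1
  obtain ⟨l1b3, l4b2, k23⟩ := mu2
  obtain ⟨l1b4, l3b2, k24⟩ := nu2
  -- the l's are trivial
  have l1e : l1 = 1 := hc _ l1_1 l1_2 (commute_of_c il1 I3 l1b3) (commute_of_c il1 I4 l1b4)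
  have l2e : l2 = 1 := hc _ l2_1 l2_2 (commute_of_c il2 I3 l2b3) (commute_of_c il2 I4 l2b4)
  have l3e : l3 = 1 := hc _ (commute_of_c il3 I1 l3b1) (commute_of_c il3 I2 l3b2) l3_3 l3_4
  have l4e : l4 = 1 := hc _ (commute_of_c il4 I1 l4b1) (commute_of_c il4 I2 l4b2) l4_3 l4_4
  subst l1e; subst l2e; subst l3e; subst l4e
  -- th is trivial
  have the : th = 1 := hc _ (commute_of_c t1 I1 T1) (commute_of_c t1 I2 T2)
    (commute_of_c t1 I3 T3) (commute_of_c t1 I4 T4)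
  have the' : th' = 1 := hc _ (commute_of_c t2 I1 T1') (commute_of_c t2 I2 T2')
    (commute_of_c t2 I3 T3') (commute_of_c t2 I4 T4')
  subst the; subst the'
  have x13_24 : Commute e13 e24 := commute_of_c o13 o24 TH
  have x14_23 : Commute e14 e23 := commute_of_c o14 o23 TH'
  -- k's and e's
  have k3_14 : Commute k3 e14 := commute_of_c ik3 o14 L2
  have k3_24 : Commute k3 e24 := commute_of_c ik3 o24 L1
  have k1_23 : Commute k1 e23 := commute_of_c ik1 o23 L4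
  have k1_24 : Commute k1 e24 := commute_of_c ik1 o24 L3
  have k4_13 : Commute k4 e13 := commute_of_c ik4 o13 L2'
  have k4_23 : Commute k4 e23 := commute_of_c ik4 o23 L1'
  have k2_13 : Commute k2 e13 := commute_of_c ik2 o13 L4'
  have k2_14 : Commute k2 e14 := commute_of_c ik2 o14 L3'
  have k1_13 : Commute k1 e13 := (cc E13 k1_1.symm k1_3.symm).symm
  have k1_14 : Commute k1 e14 := (cc E14 k1_1.symm k1_4.symm).symm
  have k2_23 : Commute k2 e23 := (cc E23 k2_2.symm k2_3.symm).symm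
  have ck13 : Commute k1 k3 := commute_of_c ik1 ik3 k13
  have ck14 : Commute k1 k4 := commute_of_c ik1 ik4 k14
  have ck23 : Commute k2 k3 := commute_of_c ik2 ik3 k23
  -- rho
  have r1 : c k3 b4 = c k1 b2 := rho_step ik3 o13 I2 I4 o24 K3 K1 E24 x13_24.symm
    k1_24.symm e24_2 k1_13 ck13
  have r2 : c k4 b3 = c k1 b2 := rho_step ik4 o14 I2 I3 o23 K4 K1' E23 x14_23.symm
    k1_23.symm e23_2 k1_14 ck14
  have r3 : c k3 b4 = c k2 b1 := rho_step ik3 o23 I1 I4 o14 K3' K2 E14 x14_23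
    k2_14.symm e14_1 k2_23 ck23
  have rho1 : c k3 b4 = 1 := by
    apply hc
    · rw [r1]; exact cc rfl k1_1 h12.symm
    · rw [r3]; exact cc rfl k2_2 h12
    · exact cc rfl k3_3 h34.symm
    · rw [r1, ← r2]; exact cc rfl k4_4 h34
  have k3e : k3 = 1 := hc _ k3_1 k3_2 k3_3 (commute_of_c ik3 I4 rho1)
  have k1e : k1 = 1 := hc _ k1_1 (commute_of_c ik1 I2 (r1 ▸ rho1)) k1_3 k1_4
  have k4e : k4 = 1 := hc _ k4_1 k4_2 (commute_of_c ik4 I3 (r2.trans (r1 ▸ rho1))) k4_4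
  have k2e : k2 = 1 := hc _ (commute_of_c ik2 I1 (r3 ▸ rho1)) k2_2 k2_3 k2_4
  subst k3e; subst k1e; subst k4e; subst k2e
  have e13e : e13 = 1 := hc _ e13_1 (commute_of_c o13 I2 K3) e13_3 (commute_of_c o13 I4 K1)
  have e14e : e14 = 1 := hc _ e14_1 (commute_of_c o14 I2 K4) (commute_of_c o14 I3 K1') e14_4
  have e23e : e23 = 1 := hc _ (commute_of_c o23 I1 K3') e23_2 e23_3 (commute_of_c o23 I4 K2)
  have e24e : e24 = 1 := hc _ (commute_of_c o24 I1 K4') e24_2 (commute_of_c o24 I3 K2') e24_4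
  subst e13e; subst e14e; subst e23e; subst e24e
  have c13 := commute_of_c I1 I3 E13
  have c14 := commute_of_c I1 I4 E14
  have c23 := commute_of_c I2 I3 E23
  have c24 := commute_of_c I2 I4 E24
  exact ⟨hc _ (Commute.refl _) h12 c13 c14, hc _ h12.symm (Commute.refl _) c23 c24,
    hc _ c13.symm c23.symm (Commute.refl _) h34, hc _ c14.symm c24.symm h34.symm (Commute.refl _)⟩

end Pool.Agent.Work.MP_432615_al
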