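import Pool.Agent.Work.MP_432615_al.Basic

/-!
# Class 3 subgroups and involutions
-/

set_option autoImplicit false

namespace Pool.Agent.Work.MP_432615_al

open Subgroup
open scoped commutatorElement

universe u

variable {G : Type u} [Group G]

/-- `p` is an involution or trivial -/
abbrev I (p : G) : Prop := p * p = 1

/-- `c p q = (p q)^2`, the commutator of the involutions `p`, `q` -/
def c (p q : G) : G := p * q * p * q

theorem inv_eq_self {p : G} (hp : I p) : p⁻¹ = p := by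
  rw [inv_eq_iff_mul_eq_one]; exact hp

theorem comm_eq_c {p q : G} (hp : I p) (hq : I q) : ⁅p, q⁆ = c p q := by
  rw [commutatorElement_def, inv_eq_self hp, inv_eq_self hq]; rfl

theorem cancel_l {p : G} (hp : I p) (x : G) : p * (p * x) = x := by
  rw [← mul_assoc, hp, one_mul]

theorem c_eq_one {p q : G} (hp : I p) (hq : I q) (h : Commute p q) : c p q = 1 := by
  rw [← comm_eq_c hp hq]; exact commutatorElement_eq_one_iff_commute.mpr h

theorem commute_of_c {p q : G} (hp : I p) (hq : I q) (h : c p q = 1) : Commute p q := by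
  rw [← comm_eq_c hp hq] at h; exact commutatorElement_eq_one_iff_commute.mp h

theorem c_swap_inv {p q : G} (hp : I p) (hq : I q) : c p q = (c q p)⁻¹ := by
  rw [← comm_eq_c hp hq, ← comm_eq_c hq hp, commutatorElement_inv]

theorem c_symm {p q : G} (hp : I p) (hq : I q) (h : I (c p q)) : c p q = c q p := by
  have h1 := c_swap_inv hq hp
  rw [inv_eq_self h] at h1
  exact h1.symm

theorem c_I_symm {p q : G} (hp : I p) (hq : I q) (h : I (c p q)) : I (c q p) := by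
  rw [← c_symm hp hq h]; exact h

theorem c_comm_left {p q : G} (hp : I p) (hq : I q) (h : I (c p q)) : Commute (c p q) p := by
  have h1 : p * c p q * p = c q p := by
    simp only [c, mul_assoc]; rw [cancel_l hp]
  rw [← c_symm hp hq h] at h1
  show c p q * p = p * c p q
  calc c p q * p = (p * c p q * p) * p := by rw [h1]
    _ = p * c p q := by rw [mul_assoc, hp, mul_one]

theorem c_comm_right {p q : G} (hp : I p) (hq : I q) (h : I (c p q)) : Commute (c p q) q := by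
  have := c_comm_left hq hp (c_I_symm hp hq h)
  rwa [← c_symm hp hq h] at this

/-- `q p q = p (c p q)` -/
theorem conj_eq {p q : G} (hp : I p) : q * p * q = p * c p q := by
  simp only [c, mul_assoc]; rw [cancel_l hp]

theorem I_conj {p q : G} (hp : I p) (hq : I q) : I (q * p * q) := by
  show q * p * q * (q * p * q) = 1
  simp only [mul_assoc]
  rw [cancel_l hq, cancel_l hp, hq]

theorem I_mul {p q : G} (hp : I p) (hq : I q) (h : Commute p q) : I (p * q) := by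
  show p * q * (p * q) = 1
  rw [h.eq, mul_assoc, ← h.eq, cancel_l hp, hq]

/-- the law of class at most three on a subgroup -/
def Cl3 (F : Subgroup G) : Prop := ∀ x ∈ F, ∀ y ∈ F, ∀ z ∈ F, ∀ w ∈ F, ⁅⁅⁅x, y⁆, z⁆, w⁆ = 1

theorem comm_mem {F : Subgroup G} {x y : G} (hx : x ∈ F) (hy : y ∈ F) : ⁅x, y⁆ ∈ F := by
  rw [commutatorElement_def]
  exact mul_mem (mul_mem (mul_mem hx hy) (inv_mem hx)) (inv_mem hy)

namespace Cl3

variable {F : Subgroup G} (hF : Cl3 F)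
include hF

theorem cen {x y z w : G} (hx : x ∈ F) (hy : y ∈ F) (hz : z ∈ F) (hw : w ∈ F) :
    Commute ⁅⁅x, y⁆, z⁆ w :=
  commutatorElement_eq_one_iff_commute.mp (hF x hx y hy z hz w hw)

theorem mul_right {x y z w : G} (hx : x ∈ F) (hy : y ∈ F) (hz : z ∈ F) (hw : w ∈ F) :
    ⁅⁅x, y⁆, z * w⁆ = ⁅⁅x, y⁆, z⁆ * ⁅⁅x, y⁆, w⁆ := by
  have h1 := hF.cen hx hy hw (F.inv_mem hz)
  have h2 : ⁅⁅x, y⁆, z * w⁆ = ⁅⁅x, y⁆, z⁆ * (z * (⁅⁅x, y⁆, w⁆ * z⁻¹)) := by
    simp only [commutatorElement_def]; group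
  rw [h2, h1.eq]; group

theorem inv_right {x y z : G} (hx : x ∈ F) (hy : y ∈ F) (hz : z ∈ F) :
    ⁅⁅x, y⁆, z⁻¹⁆ = ⁅⁅x, y⁆, z⁆⁻¹ := by
  have := hF.mul_right hx hy hz (F.inv_mem hz)
  rw [mul_inv_cancel, commutatorElement_one_right] at this
  exact (inv_eq_of_mul_eq_one_right this.symm).symm

theorem sq_right {x y z : G} (hx : x ∈ F) (hy : y ∈ F) (hz : z ∈ F) (h : I z) :
    I ⁅⁅x, y⁆, z⁆ := by
  have := hF.mul_right hx hy hz hz
  rw [h, commutatorElement_one_right] at this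
  exact this.symm

theorem comm2 {x y z w : G} (hx : x ∈ F) (hy : y ∈ F) (hz : z ∈ F) (hw : w ∈ F) :
    Commute ⁅x, y⁆ ⁅z, w⁆ := by
  rw [← commutatorElement_eq_one_iff_commute]
  conv_lhs => rw [commutatorElement_def z w]
  rw [hF.mul_right hx hy (mul_mem (mul_mem hz hw) (inv_mem hz)) (inv_mem hw),
    hF.mul_right hx hy (mul_mem hz hw) (inv_mem hz), hF.mul_right hx hy hz hw,
    hF.inv_right hx hy hz, hF.inv_right hx hy hw]
  have h1 := hF.cen hx hy hz (comm_mem (comm_mem hx hy) hw)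
  rw [h1.eq]; group

/-- if `u`, `v` commute then `[v,[u,w]] = [u,[v,w]]` -/
theorem swap {u v w : G} (hu : u ∈ F) (hv : v ∈ F) (hw : w ∈ F) (huv : Commute u v) :
    ⁅v, ⁅u, w⁆⁆ = ⁅u, ⁅v, w⁆⁆ := by
  have h1 : ⁅u * v, w⁆ = ⁅u, ⁅v, w⁆⁆ * (⁅v, w⁆ * ⁅u, w⁆) := by
    simp only [commutatorElement_def]; group
  have h2 : ⁅v * u, w⁆ = ⁅v, ⁅u, w⁆⁆ * (⁅u, w⁆ * ⁅v, w⁆) := by
    simp only [commutatorElement_def]; group
  rw [huv.eq, h2, (hF.comm2 hu hw hv hw).eq] at h1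
  exact mul_right_cancel h1

theorem swap' {u v w : G} (hu : u ∈ F) (hv : v ∈ F) (hw : w ∈ F) (huv : Commute u v) :
    ⁅⁅u, w⁆, v⁆ = ⁅⁅v, w⁆, u⁆ := by
  have := congrArg (·⁻¹) (hF.swap hu hv hw huv)
  simpa [commutatorElement_inv] using this

end Cl3

/-- Consequences for a triple `u,v,w` of involutions with `u,v` commuting. -/
theorem pack (hG : HG G) {u v w : G} (hu : I u) (hv : I v) (hw : I w) (huv : Commute u v)
    (h1 : I (c u w)) (h2 : I (c v w))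
    (hfin : ((closure ({u, v, w} : Set G) : Subgroup G) : Set G).Finite) :
    Commute (c u w) (c v w) ∧ c (c u w) v = c (c v w) u ∧ I (c (c u w) v) ∧
      Commute (c (c u w) v) u ∧ Commute (c (c u w) v) v ∧ Commute (c (c u w) v) w := by
  set F := closure ({u, v, w} : Set G) with hFdef
  have hF : Cl3 F := hG.cls F hfin
  have mu : u ∈ F := subset_closure (by simp)
  have mv : v ∈ F := subset_closure (by simp)
  have mw : w ∈ F := subset_closure (by simp)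
  have e1 : ⁅u, w⁆ = c u w := comm_eq_c hu hw
  have e2 : ⁅v, w⁆ = c v w := comm_eq_c hv hw
  have e3 : ⁅⁅u, w⁆, v⁆ = c (c u w) v := by rw [e1, comm_eq_c h1 hv]
  have e4 : ⁅⁅v, w⁆, u⁆ = c (c v w) u := by rw [e2, comm_eq_c h2 hu]
  refine ⟨?_, ?_, ?_, ?_, ?_, ?_⟩
  · have := hF.comm2 mu mw mv mw; rwa [e1, e2] at this
  · rw [← e3, ← e4]; exact hF.swap' mu mv mw huv
  · rw [← e3]; exact hF.sq_right mu mw mv hv
  · rw [← e3]; exact hF.cen mu mw mv mu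
  · rw [← e3]; exact hF.cen mu mw mv mv
  · rw [← e3]; exact hF.cen mu mw mv mw

/-- Consequences for a triple of involutions with pairwise product orders at most four. -/
theorem pack3 (hG : HG G) {x y z : G} (hx : I x) (hy : I y) (hz : I z)
    (hxy : I (c x y)) (hxz : I (c x z)) (hyz : I (c y z))
    (hfin : ((closure ({x, y, z} : Set G) : Subgroup G) : Set G).Finite) :
    Commute (c x y) (c x z) ∧ I (c (c x y) z) ∧ Commute (c (c x y) z) x ∧
      Commute (c (c x y) z) y ∧ Commute (c (c x y) z) z ∧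
      c (c x y) z * c (c y z) x * c (c x z) y = 1 := by
  set F := closure ({x, y, z} : Set G) with hFdef
  have hF : Cl3 F := hG.cls F hfin
  have mx : x ∈ F := subset_closure (by simp)
  have my : y ∈ F := subset_closure (by simp)
  have mz : z ∈ F := subset_closure (by simp)
  have e1 : ⁅x, y⁆ = c x y := comm_eq_c hx hy
  have e2 : ⁅x, z⁆ = c x z := comm_eq_c hx hz
  have e2' : ⁅y, z⁆ = c y z := comm_eq_c hy hz
  have e3 : ⁅⁅x, y⁆, z⁆ = c (c x y) z := by rw [e1, comm_eq_c hxy hz]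
  have e4 : ⁅⁅x, z⁆, y⁆ = c (c x z) y := by rw [e2, comm_eq_c hxz hy]
  have e5 : ⁅⁅y, z⁆, x⁆ = c (c y z) x := by rw [e2', comm_eq_c hyz hx]
  refine ⟨?_, ?_, ?_, ?_, ?_, ?_⟩
  · have := hF.comm2 mx my mx mz; rwa [e1, e2] at this
  · rw [← e3]; exact hF.sq_right mx my mz hz
  · rw [← e3]; exact hF.cen mx my mz mx
  · rw [← e3]; exact hF.cen mx my mz my
  · rw [← e3]; exact hF.cen mx my mz mz
  · rw [← e3, ← e4, ← e5]
    have key : ⁅z, ⁅x, y⁆⁆ = x * z * ⁅y, ⁅z⁻¹, x⁻¹⁆⁆⁻¹ * z⁻¹ * y * ⁅x⁻¹, ⁅y⁻¹, z⁆⁆⁻¹ * y⁻¹ * x⁻¹ := by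
      simp [commutatorElement_def, mul_assoc]
    rw [inv_eq_self hx, inv_eq_self hy, inv_eq_self hz] at key
    have a1 : ⁅z, ⁅x, y⁆⁆ = ⁅⁅x, y⁆, z⁆ := by
      rw [← commutatorElement_inv, inv_eq_self (hF.sq_right mx my mz hz)]
    have a2 : ⁅y, ⁅z, x⁆⁆⁻¹ = ⁅⁅x, z⁆, y⁆ := by
      rw [commutatorElement_inv]
      have : ⁅z, x⁆ = ⁅x, z⁆ := by rw [← commutatorElement_inv, e2, inv_eq_self hxz]
      rw [this]
    have a3 : ⁅x, ⁅y, z⁆⁆⁻¹ = ⁅⁅y, z⁆, x⁆ := by rw [commutatorElement_inv]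
    rw [a1, a2, a3] at key
    have c1 := hF.cen mx mz my mz
    have c1x := hF.cen mx mz my mx
    have c2 := hF.cen my mz mx my
    have c2x := hF.cen my mz mx mx
    have s1 := hF.sq_right mx my mz hz
    have s2 := hF.sq_right mx mz my hy
    have s3 := hF.sq_right my mz mx hx
    have : ⁅⁅x, y⁆, z⁆ = ⁅⁅x, z⁆, y⁆ * ⁅⁅y, z⁆, x⁆ := by
      rw [key]
      calc x * z * ⁅⁅x, z⁆, y⁆ * z * y * ⁅⁅y, z⁆, x⁆ * y * x
          = x * (z * ⁅⁅x, z⁆, y⁆) * z * (y * ⁅⁅y, z⁆, x⁆) * y * x := by group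
        _ = x * (⁅⁅x, z⁆, y⁆ * z) * z * (⁅⁅y, z⁆, x⁆ * y) * y * x := by rw [c1.eq, c2.eq]
        _ = (x * ⁅⁅x, z⁆, y⁆) * (z * z) * ⁅⁅y, z⁆, x⁆ * (y * y) * x := by group
        _ = (⁅⁅x, z⁆, y⁆ * x) * ⁅⁅y, z⁆, x⁆ * x := by rw [← c1x.eq, hz, hy]; group
        _ = ⁅⁅x, z⁆, y⁆ * (x * ⁅⁅y, z⁆, x⁆) * x := by group
        _ = ⁅⁅x, z⁆, y⁆ * (⁅⁅y, z⁆, x⁆ * x) * x := by rw [← c2x.eq]
        _ = ⁅⁅x, z⁆, y⁆ * ⁅⁅y, z⁆, x⁆ * (x * x) := by group
        _ = _ := by rw [hx, mul_one]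
    rw [this]
    have c3 : Commute ⁅⁅x, z⁆, y⁆ ⁅⁅y, z⁆, x⁆ :=
      hF.cen mx mz my (comm_mem (comm_mem my mz) mx)
    calc ⁅⁅x, z⁆, y⁆ * ⁅⁅y, z⁆, x⁆ * ⁅⁅y, z⁆, x⁆ * ⁅⁅x, z⁆, y⁆
        = ⁅⁅x, z⁆, y⁆ * (⁅⁅y, z⁆, x⁆ * ⁅⁅y, z⁆, x⁆) * ⁅⁅x, z⁆, y⁆ := by group
      _ = 1 := by rw [s3, mul_one, s2]

end Pool.Agent.Work.MP_432615_al
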