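import Pool.Agent.Work.MP_432615_al.TwoOne

/-!
# T3 : four involutions with pairwise products of order at most four; T4
-/

set_option autoImplicit false

namespace Pool.Agent.Work.MP_432615_al

open Subgroup
open scoped commutatorElement

universe u

variable {G : Type u} [Group G]

/-- four involutions, pairwise products of order at most four, jointly with trivial centraliser -/
structure Quad (p q r s : G) : Prop where
  Ip : I p
  Iq : I q
  Ir : I r
  Is : I s
  opq : I (c p q)
  opr : I (c p r)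
  ops : I (c p s)
  oqr : I (c q r)
  oqs : I (c q s)
  ors : I (c r s)
  hc : ∀ t : G, Commute t p → Commute t q → Commute t r → Commute t s → t = 1

namespace Quad

theorem s12 {p q r s : G} (h : Quad p q r s) : Quad q p r s :=
  ⟨h.Iq, h.Ip, h.Ir, h.Is, c_I_symm h.Ip h.Iq h.opq, h.oqr, h.oqs, h.opr, h.ops, h.ors,
    fun t a b c d => h.hc t b a c d⟩

theorem s23 {p q r s : G} (h : Quad p q r s) : Quad p r q s :=
  ⟨h.Ip, h.Ir, h.Iq, h.Is, h.opr, h.opq, h.ops, c_I_symm h.Iq h.Ir h.oqr, h.ors, h.oqs,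
    fun t a b c d => h.hc t a c b d⟩

theorem s34 {p q r s : G} (h : Quad p q r s) : Quad p q s r :=
  ⟨h.Ip, h.Iq, h.Is, h.Ir, h.opq, h.ops, h.opr, h.oqs, h.oqr, c_I_symm h.Ir h.Is h.ors,
    fun t a b c d => h.hc t a b d c⟩

variable (hG : HG G)
include hG

theorem base {p q r s : G} (h : Quad p q r s) :
    Commute (c p q) (c p r) ∧ I (c (c p q) r) ∧ Commute (c (c p q) r) p ∧
      Commute (c (c p q) r) q ∧ Commute (c (c p q) r) r ∧
      c (c p q) r * c (c q r) p * c (c p r) q = 1 :=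
  pack3 hG h.Ip h.Iq h.Ir h.opq h.opr h.oqr (T1' hG h.Ip h.Iq h.Ir h.opq h.opr h.oqr)

theorem lev2 {p q r s : G} (h : Quad p q r s) :
    Commute (c (c p q) r) (c (c p q) s) ∧ I (c (c (c p q) r) s) ∧
      Commute (c (c (c p q) r) s) (c p q) ∧
      Commute (c (c (c p q) r) s) r ∧ Commute (c (c (c p q) r) s) s ∧
      c (c (c p q) r) s * c (c r s) (c p q) * c (c (c p q) s) r = 1 := by
  have a := (h.base hG).2.1
  have b := (h.s34.base hG).2.1
  exact pack3 hG h.opq h.Ir h.Is a b h.ors (T1' hG h.opq h.Ir h.Is a b h.ors)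

theorem th' {p q r s : G} (h : Quad p q r s) :
    I (c (c r s) (c p q)) ∧ Commute (c (c r s) (c p q)) r ∧ Commute (c (c r s) (c p q)) s := by
  have a := c_I_symm h.opq h.Ir (h.base hG).2.1
  have b := c_I_symm h.opq h.Is (h.s34.base hG).2.1
  have := pack3 hG h.Ir h.Is h.opq h.ors a b (T1' hG h.Ir h.Is h.opq h.ors a b)
  exact ⟨this.2.1, this.2.2.1, this.2.2.2.1⟩

theorem th {p q r s : G} (h : Quad p q r s) : c (c r s) (c p q) = 1 := by
  have h1 := h.th' hG
  have h2 : Quad r s p q := h.s23.s12.s34.s23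
  have h3 := h2.th' hG
  have e : c (c r s) (c p q) = c (c p q) (c r s) := c_symm h.ors h.opq h1.1
  exact h.hc _ (e ▸ h3.2.1) (e ▸ h3.2.2) h1.2.1 h1.2.2

/-- `g_{pq,r,s} = g_{pq,s,r}` -/
theorem gsymm {p q r s : G} (h : Quad p q r s) :
    c (c (c p q) r) s = c (c (c p q) s) r := by
  have h1 := (h.lev2 hG).2.2.2.2.2
  rw [h.th hG, mul_one] at h1
  have i2 := (h.s34.lev2 hG).2.1
  calc c (c (c p q) r) s = c (c (c p q) r) s * (c (c (c p q) s) r * c (c (c p q) s) r) := by
        rw [i2, mul_one]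
    _ = (c (c (c p q) r) s * c (c (c p q) s) r) * c (c (c p q) s) r := by group
    _ = _ := by rw [h1, one_mul]

/-- `[g,p] = [e_{ps}, k_{pq,r}]`, commuting with `p` and `s` -/
theorem lev3 {p q r s : G} (h : Quad p q r s) :
    c (c (c (c p q) r) s) p = c (c p s) (c (c p q) r) ∧
      I (c (c (c (c p q) r) s) p) ∧
      Commute (c (c (c (c p q) r) s) p) p ∧ Commute (c (c (c (c p q) r) s) p) s := by
  obtain ⟨-, b2, b3, b4, b5, b6⟩ := h.base hG
  obtain ⟨-, g2, g3, g4, g5, g6⟩ := h.lev2 hG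
  obtain ⟨-, k1, k2, -, k3, k4⟩ := S hG b2 h.Ip h.Is b3 rfl rfl g2 h.ops
  exact ⟨k1, k2, k3, k4⟩

/-- `k_{pq,r}` commutes with `e_{rs}` -/
theorem ke {p q r s : G} (h : Quad p q r s) : Commute (c (c p q) r) (c r s) := by
  obtain ⟨-, b2, b3, b4, b5, b6⟩ := h.base hG
  obtain ⟨-, g2, g3, g4, g5, g6⟩ := h.lev2 hG
  obtain ⟨-, k1, -⟩ := S hG b2 h.Ir h.Is b5 rfl rfl g2 h.ors
  rw [c_eq_one g2 h.Ir g4] at k1
  exact (commute_of_c h.ors b2 k1.symm).symm

/-- Hall–Witt symmetry: `[e_{ps}, k_{pq,r}] = [e_{ps}, k_{pr,q}]` -/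
theorem hsymm {p q r s : G} (h : Quad p q r s) :
    c (c p s) (c (c p q) r) = c (c p s) (c (c p r) q) := by
  obtain ⟨-, b2, b3, b4, b5, b6⟩ := h.base hG
  have hq : Quad q r p s := h.s12.s23
  have i2 : I (c (c q r) p) := (hq.base hG).2.1
  have i3 : I (c (c p r) q) := (h.s23.base hG).2.1
  have c1 : Commute (c (c q r) p) (c p s) := hq.ke hG
  -- k_{pq,r} = k_{pr,q} * k_{qr,p}
  have hk : c (c p q) r = c (c p r) q * c (c q r) p := by
    have : c (c p q) r * (c (c q r) p * c (c p r) q) = 1 := by rw [← mul_assoc]; exact b6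
    have h2 : c (c p q) r = (c (c q r) p * c (c p r) q)⁻¹ := eq_inv_of_mul_eq_one_left this
    rw [h2, mul_inv_rev, inv_eq_self i2, inv_eq_self i3]
  have i1 : I (c (c p r) q * c (c q r) p) := by rw [← hk]; exact b2
  have c2 : Commute (c (c p r) q) (c (c q r) p) := by
    apply commute_of_c i3 i2
    show c (c p r) q * c (c q r) p * c (c p r) q * c (c q r) p = 1
    rw [mul_assoc (c (c p r) q * c (c q r) p)]; exact i1
  rw [hk]
  set x := c (c p r) q
  set y := c (c q r) p
  set e := c p s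
  calc c e (x * y) = e * x * y * (e * x) * y := by simp only [c, mul_assoc]
    _ = e * x * (e * x) * y * y := by
        have : Commute y (e * x) := c1.mul_right c2.symm
        rw [mul_assoc (e * x) y (e * x), this.eq]; group
    _ = e * x * (e * x) * (y * y) := by group
    _ = c e x := by rw [i2, mul_one]; simp only [c, mul_assoc]

theorem Hone {p q r s : G} (h : Quad p q r s) : c (c (c (c p q) r) s) p = 1 := by
  have a1 := h.lev3 hG
  have a2 := h.s34.lev3 hG
  rw [← h.gsymm hG] at a2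
  have a3 := h.s23.lev3 hG
  have a4 := h.s23.s34.lev3 hG
  rw [← h.s23.gsymm hG] at a4
  have e1 : c (c (c (c p q) r) s) p = c (c (c (c p r) q) s) p := by
    rw [a1.1, a3.1]; exact h.hsymm hG
  exact h.hc _ a1.2.2.1 (by rw [e1]; exact a4.2.2.2) a2.2.2.2 a1.2.2.2

theorem gone {p q r s : G} (h : Quad p q r s) : c (c (c p q) r) s = 1 := by
  have e : c q p = c p q := (c_symm h.Ip h.Iq h.opq).symm
  obtain ⟨-, g2, g3, g4, g5, g6⟩ := h.lev2 hG
  have h1 := h.Hone hG
  have h2 := h.s12.Hone hG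
  rw [e] at h2
  exact h.hc _ (commute_of_c g2 h.Ip h1) (commute_of_c g2 h.Iq h2) g4 g5

theorem kone {p q r s : G} (h : Quad p q r s) : c (c p q) r = 1 := by
  obtain ⟨-, b2, b3, b4, b5, b6⟩ := h.base hG
  exact h.hc _ b3 b4 b5 (commute_of_c b2 h.Is (h.gone hG))

theorem eone {p q r s : G} (h : Quad p q r s) : c p q = 1 :=
  h.hc _ (c_comm_left h.Ip h.Iq h.opq) (c_comm_right h.Ip h.Iq h.opq)
    (commute_of_c h.opq h.Ir (h.kone hG)) (commute_of_c h.opq h.Is (h.s34.kone hG))

theorem one {p q r s : G} (h : Quad p q r s) : p = 1 :=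
  h.hc _ (Commute.refl _) (commute_of_c h.Ip h.Iq (h.eone hG))
    (commute_of_c h.Ip h.Ir (h.s23.eone hG))
    (commute_of_c h.Ip h.Is (h.s34.s23.eone hG))

end Quad

/-- T3 -/
theorem T3 (hG : HG G) {S0 : Set G} {p q r s : G} (hS : S0 = {p, q, r, s}) (hI : ∀ x ∈ S0, I x)
    (hz : ∀ x ∈ S0, ∀ y ∈ S0, ∀ w ∈ S0, Commute (z x y) w) :
    ((closure S0 : Subgroup G) : Set G).Finite := by
  have hfs : S0.Finite := by rw [hS]; simp
  obtain ⟨Q, _, f, hQ, -, hcen, hfin⟩ := reduce hG S0 hfs
  have J : ∀ x (hx : x ∈ S0), I (f ⟨x, Subgroup.subset_closure hx⟩) :=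
    fun x hx => I_map f (I_coe (hI x hx))
  have O : ∀ x (hx : x ∈ S0), ∀ y (hy : y ∈ S0),
      I (c (f ⟨x, Subgroup.subset_closure hx⟩) (f ⟨y, Subgroup.subset_closure hy⟩)) := by
    intro x hx y hy
    apply hcen
    intro w hw
    have := comm_map f (comm_coe (p := z (⟨x, Subgroup.subset_closure hx⟩ : closure S0)
      ⟨y, Subgroup.subset_closure hy⟩) (q := ⟨w, Subgroup.subset_closure hw⟩) (hz x hx y hy w hw))
    rw [z, map_mul, map_c] at this; exact this
  have mp : p ∈ S0 := by rw [hS]; simp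
  have mq : q ∈ S0 := by rw [hS]; simp
  have mr : r ∈ S0 := by rw [hS]; simp
  have ms : s ∈ S0 := by rw [hS]; simp
  have Qd : Quad (f ⟨p, Subgroup.subset_closure mp⟩) (f ⟨q, Subgroup.subset_closure mq⟩)
      (f ⟨r, Subgroup.subset_closure mr⟩) (f ⟨s, Subgroup.subset_closure ms⟩) := by
    refine ⟨J p mp, J q mq, J r mr, J s ms, O p mp q mq, O p mp r mr, O p mp s ms, O q mq r mr,
      O q mq s ms, O r mr s ms, ?_⟩
    intro t c1 c2 c3 c4
    apply hcen
    intro w hw
    have hw' := hw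
    rw [hS] at hw'
    simp only [Set.mem_insert_iff, Set.mem_singleton_iff] at hw'
    rcases hw' with rfl | rfl | rfl | rfl <;> assumption
  apply hfin
  intro w hw
  have hw' := hw
  rw [hS] at hw'
  simp only [Set.mem_insert_iff, Set.mem_singleton_iff] at hw'
  rcases hw' with rfl | rfl | rfl | rfl
  · exact Qd.one hQ
  · exact Qd.s12.one hQ
  · exact Qd.s23.s12.one hQ
  · exact Qd.s34.s23.s12.one hQ

/-- T4 : a commuting pair and a third involution generate a finite group. -/
theorem T4 (hG : HG G) {a x b : G} (ha : I a) (hx : I x) (hb : I b) (hax : Commute a x) :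
    ((closure ({a, x, b} : Set G) : Subgroup G) : Set G).Finite := by
  apply fin_of_conj hG ha hx hax
  have Iax : I (a * x) := I_mul ha hx hax
  have e4 : a * (x * b * x) * a = (a * x) * b * (a * x) := by
    calc a * (x * b * x) * a = (a * x) * b * (x * a) := by group
      _ = _ := by rw [← hax.eq]
  have e4' : a * (x * b * x) * a = x * (a * b * a) * x := by
    calc a * (x * b * x) * a = (a * x) * b * (x * a) := by group
      _ = (x * a) * b * (a * x) := by rw [hax.eq]
      _ = _ := by group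
  have I2 : I (x * b * x) := I_conj hb hx
  have I3 : I (a * b * a) := I_conj hb ha
  have I4 : I (a * (x * b * x) * a) := I_conj I2 ha
  have o12 : I (c b (x * b * x)) := I_c_conj hG hb hx
  have o34 : I (c (a * b * a) (a * (x * b * x) * a)) := by
    rw [c_conj_conj ha]; exact I_conj o12 ha
  have o13 : I (c b (a * b * a)) := I_c_conj hG hb ha
  have o14 : I (c b (a * (x * b * x) * a)) := by rw [e4]; exact I_c_conj hG hb Iax
  have o24 : I (c (x * b * x) (a * (x * b * x) * a)) := by
    rw [e4', c_conj_conj hx]; exact I_conj o13 hx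
  have o23' : c (x * b * x) (a * b * a) = x * c b (a * (x * b * x) * a) * x := by
    rw [← c_conj_conj hx, e4', conj_conj hx]
  have o23 : I (c (x * b * x) (a * b * a)) := by
    rw [o23']; exact I_conj o14 hx
  have zc : ∀ {p q w : G}, I (c p q) → Commute (z p q) w := fun h => by
    rw [z_of_I h]; exact Commute.one_left _
  have zr : ∀ {p : G}, I p → I (c p p) := fun {p} hp => by
    rw [c_eq_one hp hp (Commute.refl _)]; exact mul_one 1
  apply T3 hG rfl
  · intro y hy
    simp only [Set.mem_insert_iff, Set.mem_singleton_iff] at hy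
    rcases hy with rfl | rfl | rfl | rfl <;> assumption
  · intro y hy w hw v _
    apply zc
    simp only [Set.mem_insert_iff, Set.mem_singleton_iff] at hy hw
    rcases hy with rfl | rfl | rfl | rfl <;> rcases hw with rfl | rfl | rfl | rfl
    · exact zr hb
    · exact o12
    · exact o13
    · exact o14
    · exact c_I_symm hb I2 o12
    · exact zr I2
    · exact o23
    · exact o24
    · exact c_I_symm hb I3 o13
    · exact c_I_symm I2 I3 o23
    · exact zr I3
    · exact o34
    · exact c_I_symm hb I4 o14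
    · exact c_I_symm I2 I4 o24
    · exact c_I_symm I3 I4 o34
    · exact zr I4

end Pool.Agent.Work.MP_432615_al
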