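import Pool.Agent.Work.MP_432615_al.LemQ

/-!
# T2 : a commuting pair and a third involution, one order at most four; T1 : three involutions
-/

set_option autoImplicit false

namespace Pool.Agent.Work.MP_432615_al

open Subgroup
open scoped commutatorElement

universe u

variable {G : Type u} [Group G]

theorem map_c {H Q : Type*} [Group H] [Group Q] (f : H →* Q) (p q : H) :
    f (c p q) = c (f p) (f q) := by simp only [c, map_mul]

theorem I_map {H Q : Type*} [Group H] [Group Q] (f : H →* Q) {p : H} (h : I p) : I (f p) := by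
  show f p * f p = 1
  rw [← map_mul, h, map_one]

theorem I_coe {K : Subgroup G} {p : K} (h : I (p : G)) : I p := Subtype.ext h

theorem comm_coe {K : Subgroup G} {p q : K} (h : Commute (p : G) (q : G)) : Commute p q :=
  Subtype.ext h

theorem comm_map {H Q : Type*} [Group H] [Group Q] (f : H →* Q) {p q : H} (h : Commute p q) :
    Commute (f p) (f q) := by
  show f p * f q = f q * f p
  rw [← map_mul, h.eq, map_mul]

theorem finQ (hG : HG G) {b1 b2 b3 b4 : G} (I1 : I b1) (I2 : I b2) (I3 : I b3) (I4 : I b4)
    (h12 : Commute b1 b2) (h34 : Commute b3 b4)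
    (o13 : I (c b1 b3)) (o14 : I (c b1 b4)) (o23 : I (c b2 b3)) (o24 : I (c b2 b4))
    (t1 : I (c (c b1 b3) (c b2 b4))) (t2 : I (c (c b1 b4) (c b2 b3))) :
    ((closure ({b1, b2, b3, b4} : Set G) : Subgroup G) : Set G).Finite := by
  obtain ⟨Q, _, f, hQ, -, hcen, hfin⟩ := reduce hG ({b1, b2, b3, b4} : Set G) (by simp)
  have m1 : b1 ∈ closure ({b1, b2, b3, b4} : Set G) := Subgroup.subset_closure (by simp)
  have m2 : b2 ∈ closure ({b1, b2, b3, b4} : Set G) := Subgroup.subset_closure (by simp)
  have m3 : b3 ∈ closure ({b1, b2, b3, b4} : Set G) := Subgroup.subset_closure (by simp)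
  have m4 : b4 ∈ closure ({b1, b2, b3, b4} : Set G) := Subgroup.subset_closure (by simp)
  have key := lemQ hQ (b1 := f ⟨b1, m1⟩) (b2 := f ⟨b2, m2⟩) (b3 := f ⟨b3, m3⟩) (b4 := f ⟨b4, m4⟩)
    (I_map f (I_coe I1)) (I_map f (I_coe I2)) (I_map f (I_coe I3)) (I_map f (I_coe I4))
    (comm_map f (comm_coe h12)) (comm_map f (comm_coe h34))
    (by rw [← map_c]; exact I_map f (I_coe o13))
    (by rw [← map_c]; exact I_map f (I_coe o14))
    (by rw [← map_c]; exact I_map f (I_coe o23))
    (by rw [← map_c]; exact I_map f (I_coe o24))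
    (by rw [← map_c, ← map_c, ← map_c]; exact I_map f (I_coe t1))
    (by rw [← map_c, ← map_c, ← map_c]; exact I_map f (I_coe t2))
    (by
      intro t c1 c2 c3 c4
      apply hcen
      intro s hs
      have hs' := hs
      simp only [Set.mem_insert_iff, Set.mem_singleton_iff] at hs'
      rcases hs' with rfl | rfl | rfl | rfl <;> assumption)
  apply hfin
  intro s hs
  have hs' := hs
  simp only [Set.mem_insert_iff, Set.mem_singleton_iff] at hs'
  rcases hs' with rfl | rfl | rfl | rfl
  exacts [key.1, key.2.1, key.2.2.1, key.2.2.2]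

theorem conj_conj {t x : G} (ht : I t) : t * (t * x * t) * t = x := by
  calc t * (t * x * t) * t = (t * t) * x * (t * t) := by group
    _ = x := by rw [ht]; simp

/-- `x * (x b x) = c`-type identity -/
theorem c_conj {b a : G} : c b (a * b * a) = c b a * c b a := by
  simp only [c, mul_assoc]

theorem I_c_conj (hG : HG G) {b a : G} (hb : I b) (ha : I a) : I (c b (a * b * a)) := by
  rw [c_conj]; exact I_z hG hb ha

theorem c_conj_conj {p q t : G} (ht : I t) : c (t * p * t) (t * q * t) = t * c p q * t := by
  calc c (t * p * t) (t * q * t)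
      = t * p * (t * t) * q * (t * t) * p * (t * t) * q * t := by simp only [c]; group
    _ = t * c p q * t := by rw [ht]; simp only [c, mul_assoc, one_mul, mul_one]

/-- Passing from the four conjugates back to the group. -/
theorem fin_of_conj (hG : HG G) {a x b : G} (ha : I a) (hx : I x) (hax : Commute a x)
    (h : ((closure ({b, x * b * x, a * b * a, a * (x * b * x) * a} : Set G) : Subgroup G) :
      Set G).Finite) :
    ((closure ({a, x, b} : Set G) : Subgroup G) : Set G).Finite := by
  have e4 : a * (x * b * x) * a = x * (a * b * a) * x := by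
    calc a * (x * b * x) * a = (a * x) * b * (x * a) := by group
      _ = (x * a) * b * (a * x) := by rw [hax.eq]
      _ = _ := by group
  have IU : ∀ t ∈ ({a, x} : Set G), I t := by
    intro t ht
    simp only [Set.mem_insert_iff, Set.mem_singleton_iff] at ht
    rcases ht with rfl | rfl <;> assumption
  have hf6 := fin_ext h (fin_pair hG ha hx) IU (by
    intro t ht s hs
    apply Subgroup.subset_closure
    simp only [Set.mem_insert_iff, Set.mem_singleton_iff] at ht hs ⊢
    rcases ht with rfl | rfl <;> rcases hs with rfl | rfl | rfl | rfl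
    · right; right; left; rfl
    · right; right; right; rfl
    · left; exact conj_conj ha
    · right; left; exact conj_conj ha
    · right; left; rfl
    · left; exact conj_conj hx
    · right; right; right; rw [e4]
    · right; right; left; rw [e4]; exact conj_conj hx)
  refine closure_finite_of_le hf6 ?_
  intro y hy
  apply Subgroup.subset_closure
  simp only [Set.mem_insert_iff, Set.mem_singleton_iff, Set.mem_union] at hy ⊢
  tauto

/-- T2 -/
theorem T2 (hG : HG G) {a x b : G} (ha : I a) (hx : I x) (hb : I b) (hax : Commute a x)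
    (hxb : I (c x b)) : ((closure ({a, x, b} : Set G) : Subgroup G) : Set G).Finite := by
  apply fin_of_conj hG ha hx hax
  have hbx := c_I_symm hx hb hxb
  have Iax : I (a * x) := I_mul ha hx hax
  have e4 : a * (x * b * x) * a = (a * x) * b * (a * x) := by
    calc a * (x * b * x) * a = (a * x) * b * (x * a) := by group
      _ = _ := by rw [← hax.eq]
  have e4' : a * (x * b * x) * a = x * (a * b * a) * x := by
    calc a * (x * b * x) * a = (a * x) * b * (x * a) := by group
      _ = (x * a) * b * (a * x) := by rw [hax.eq]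
      _ = _ := by group
  have I2 : I (x * b * x) := I_conj hb hx
  have I3 : I (a * b * a) := I_conj hb ha
  have I4 : I (a * (x * b * x) * a) := I_conj I2 ha
  have h12 : Commute b (x * b * x) := by
    apply commute_of_c hb I2
    rw [c_conj]; exact hbx
  have h34 : Commute (a * b * a) (a * (x * b * x) * a) := by
    apply commute_of_c I3 I4
    rw [c_conj_conj ha, c_eq_one hb I2 h12, mul_one, ha]
  have o13 : I (c b (a * b * a)) := I_c_conj hG hb ha
  have o14 : I (c b (a * (x * b * x) * a)) := by rw [e4]; exact I_c_conj hG hb Iax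
  have o24 : I (c (x * b * x) (a * (x * b * x) * a)) := by
    rw [e4', c_conj_conj hx]; exact I_conj o13 hx
  have o23' : c (x * b * x) (a * b * a) = x * c b (a * (x * b * x) * a) * x := by
    rw [← c_conj_conj hx, e4', conj_conj hx]
  have o23 : I (c (x * b * x) (a * b * a)) := by
    rw [o23']; exact I_conj o14 hx
  apply finQ hG hb I2 I3 I4 h12 h34 o13 o14 o23 o24
  · rw [e4', c_conj_conj hx]; exact I_c_conj hG o13 hx
  · rw [o23']; exact I_c_conj hG o14 hx

/-- a version of `S` using T2 : one of the orders may be eight, results not involving it -/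
theorem T2z (hG : HG G) {a x b : G} (ha : I a) (hx : I x) (hb : I b) (hax : Commute a x)
    (hxb : I (c x b)) : Commute (z a b) x :=
  z_comm hG (T2 hG ha hx hb hax hxb) ha hb (Subgroup.subset_closure (by simp))
    (Subgroup.subset_closure (by simp)) (Subgroup.subset_closure (by simp))

theorem z_self {p q : G} (hG : HG G) (hp : I p) (hq : I q) :
    Commute (z p q) p ∧ Commute (z p q) q :=
  ⟨z_comm hG (fin_pair hG hp hq) hp hq (Subgroup.subset_closure (by simp))
    (Subgroup.subset_closure (by simp)) (Subgroup.subset_closure (by simp)),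
   z_comm hG (fin_pair hG hp hq) hp hq (Subgroup.subset_closure (by simp))
    (Subgroup.subset_closure (by simp)) (Subgroup.subset_closure (by simp))⟩

/-- T1, in a group with trivial centre. -/
theorem lemT1 (hG : HG G) {a b d : G} (Ia : I a) (Ib : I b) (Id : I d)
    (oab : I (c a b)) (oad : I (c a d)) (obd : I (c b d))
    (hc : ∀ t : G, Commute t a → Commute t b → Commute t d → t = 1) :
    a = 1 ∧ b = 1 ∧ d = 1 := by
  obtain ⟨e, E⟩ : ∃ e, c a b = e := ⟨_, rfl⟩
  obtain ⟨f, F⟩ : ∃ e, c a d = e := ⟨_, rfl⟩
  obtain ⟨g, Gg⟩ : ∃ e, c b d = e := ⟨_, rfl⟩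
  rw [E] at oab; rw [F] at oad; rw [Gg] at obd
  have E' := cs Ia Ib E oab
  have F' := cs Ia Id F oad
  have G' := cs Ib Id Gg obd
  have ea := cl Ia Ib E oab
  have eb := cr Ia Ib E oab
  have fa := cl Ia Id F oad
  have fd := cr Ia Id F oad
  have gb := cl Ib Id Gg obd
  have gd := cr Ib Id Gg obd
  -- the three fourth powers
  have ze : I (c e d) := by
    apply hc
    · exact T2z hG oab Ia Id ea (by rw [F]; exact oad)
    · exact T2z hG oab Ib Id eb (by rw [Gg]; exact obd)
    · exact (z_self hG oab Id).2
  have zf : I (c f b) := by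
    apply hc
    · exact T2z hG oad Ia Ib fa (by rw [E]; exact oab)
    · exact (z_self hG oad Ib).2
    · exact T2z hG oad Id Ib fd (by rw [G']; exact obd)
  have zg : I (c g a) := by
    apply hc
    · exact (z_self hG obd Ia).2
    · exact T2z hG obd Ib Ia gb (by rw [E']; exact oab)
    · exact T2z hG obd Id Ia gd (by rw [F']; exact oad)
  -- S44 applications
  obtain ⟨-, A1, ia1, -, a1_1, a1_2⟩ := S hG oab Ia Id ea rfl F ze oad
  obtain ⟨-, A2, ia2, -, a2_1, a2_2⟩ := S hG oab Ib Id eb rfl Gg ze obd
  obtain ⟨-, B1, ib1, -, b1_1, b1_2⟩ := S hG oad Ia Ib fa rfl E zf oab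
  obtain ⟨-, B2, ib2, -, b2_1, b2_2⟩ := S hG oad Id Ib fd rfl G' zf obd
  obtain ⟨-, C1, ic1, -, c1_1, c1_2⟩ := S hG obd Ib Ia gb rfl E' zg oab
  obtain ⟨-, C2, ic2, -, c2_1, c2_2⟩ := S hG obd Id Ia gd rfl F' zg oad
  -- A1 : c (c e d) a = c f e ; B1 : c (c f b) a = c e f
  have hfe : c f e = 1 := by
    have h1 : c f e = c e f := c_symm oad oab (by rw [← A1]; exact ia1)
    apply hc
    · rw [← A1]; exact a1_1
    · rw [h1, ← B1]; exact b1_2
    · rw [← A1]; exact a1_2
  have hge : c g e = 1 := by
    -- A2 : c (c e d) b = c g e ; C1 : c (c g a) b = c e g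
    have h1 : c g e = c e g := c_symm obd oab (by rw [← A2]; exact ia2)
    apply hc
    · rw [h1, ← C1]; exact c1_2
    · rw [← A2]; exact a2_1
    · rw [← A2]; exact a2_2
  have hgf : c g f = 1 := by
    -- B2 : c (c f b) d = c g f ; C2 : c (c g a) d = c f g
    have h1 : c g f = c f g := c_symm obd oad (by rw [← B2]; exact ib2)
    apply hc
    · rw [h1, ← C2]; exact c2_2
    · rw [← B2]; exact b2_2
    · rw [← B2]; exact b2_1
  have ced : c e d = 1 := hc _ (commute_of_c ze Ia (A1.trans hfe))
    (commute_of_c ze Ib (A2.trans hge)) (c_comm_right oab Id ze)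
  have cfb : c f b = 1 := by
    have hef : c e f = 1 := by
      rw [c_symm oab oad (by rw [← B1]; exact ib1)]; exact hfe
    exact hc _ (commute_of_c zf Ia (B1.trans hef)) (c_comm_right oad Ib zf)
      (commute_of_c zf Id (B2.trans hgf))
  have cga : c g a = 1 := by
    have heg : c e g = 1 := by
      rw [c_symm oab obd (by rw [← C1]; exact ic1)]; exact hge
    have hfg : c f g = 1 := by
      rw [c_symm oad obd (by rw [← C2]; exact ic2)]; exact hgf
    exact hc _ (c_comm_right obd Ia zg) (commute_of_c zg Ib (C1.trans heg))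
      (commute_of_c zg Id (C2.trans hfg))
  have ee : e = 1 := hc _ ea eb (commute_of_c oab Id ced)
  have ff : f = 1 := hc _ fa (commute_of_c oad Ib cfb) fd
  have gg : g = 1 := hc _ (commute_of_c obd Ia cga) gb gd
  subst ee; subst ff; subst gg
  have cab := commute_of_c Ia Ib E
  have cad := commute_of_c Ia Id F
  have cbd := commute_of_c Ib Id Gg
  exact ⟨hc _ (Commute.refl _) cab cad, hc _ cab.symm (Commute.refl _) cbd,
    hc _ cad.symm cbd.symm (Commute.refl _)⟩

/-- T1 : three involutions, pairwise products of order at most four modulo centre. -/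
theorem T1 (hG : HG G) {a b d : G} (Ia : I a) (Ib : I b) (Id : I d)
    (oab : Commute (z a b) d) (oad : Commute (z a d) b) (obd : Commute (z b d) a) :
    ((closure ({a, b, d} : Set G) : Subgroup G) : Set G).Finite := by
  obtain ⟨Q, _, f, hQ, -, hcen, hfin⟩ := reduce hG ({a, b, d} : Set G) (by simp)
  have m1 : a ∈ closure ({a, b, d} : Set G) := Subgroup.subset_closure (by simp)
  have m2 : b ∈ closure ({a, b, d} : Set G) := Subgroup.subset_closure (by simp)
  have m3 : d ∈ closure ({a, b, d} : Set G) := Subgroup.subset_closure (by simp)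
  have hc : ∀ t : Q, Commute t (f ⟨a, m1⟩) → Commute t (f ⟨b, m2⟩) → Commute t (f ⟨d, m3⟩) →
      t = 1 := by
    intro t c1 c2 c3
    apply hcen
    intro s hs
    have hs' := hs
    simp only [Set.mem_insert_iff, Set.mem_singleton_iff] at hs'
    rcases hs' with rfl | rfl | rfl <;> assumption
  have J1 := I_map f (I_coe (p := ⟨a, m1⟩) Ia)
  have J2 := I_map f (I_coe (p := ⟨b, m2⟩) Ib)
  have J3 := I_map f (I_coe (p := ⟨d, m3⟩) Id)
  have key := lemT1 hQ J1 J2 J3
    (hc _ (z_self hQ J1 J2).1 (z_self hQ J1 J2).2 (by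
      have := comm_map f (comm_coe (p := z (⟨a, m1⟩ : closure ({a, b, d} : Set G)) ⟨b, m2⟩)
        (q := ⟨d, m3⟩) oab)
      rw [z, map_mul, map_c] at this; exact this))
    (hc _ (z_self hQ J1 J3).1 (by
      have := comm_map f (comm_coe (p := z (⟨a, m1⟩ : closure ({a, b, d} : Set G)) ⟨d, m3⟩)
        (q := ⟨b, m2⟩) oad)
      rw [z, map_mul, map_c] at this; exact this) (z_self hQ J1 J3).2)
    (hc _ (by
      have := comm_map f (comm_coe (p := z (⟨b, m2⟩ : closure ({a, b, d} : Set G)) ⟨d, m3⟩)
        (q := ⟨a, m1⟩) obd)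
      rw [z, map_mul, map_c] at this; exact this) (z_self hQ J2 J3).1 (z_self hQ J2 J3).2)
    hc
  apply hfin
  intro s hs
  have hs' := hs
  simp only [Set.mem_insert_iff, Set.mem_singleton_iff] at hs'
  rcases hs' with rfl | rfl | rfl
  exacts [key.1, key.2.1, key.2.2]

theorem T1' (hG : HG G) {a b d : G} (Ia : I a) (Ib : I b) (Id : I d)
    (oab : I (c a b)) (oad : I (c a d)) (obd : I (c b d)) :
    ((closure ({a, b, d} : Set G) : Subgroup G) : Set G).Finite := by
  apply T1 hG Ia Ib Id
  · rw [z_of_I oab]; exact Commute.one_left _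
  · rw [z_of_I oad]; exact Commute.one_left _
  · rw [z_of_I obd]; exact Commute.one_left _

end Pool.Agent.Work.MP_432615_al
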